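import Pool.Agent.N671.DA.Sys

/-!
Counting tuples of natural numbers with a member of a thin set near a multiple of them (helper66). Used by the results on the
values of multiplicative functions.
-/

set_option autoImplicit false

namespace Pool.Agent.Zk66.NR

/-- the natural numbers in a short interval -/
lemma card_near {x R : ℝ} (hR : 0 ≤ R) (S : Finset ℕ) (hS : ∀ w ∈ S, |(w : ℝ) - x| ≤ R) :
    (S.card : ℝ) ≤ 2 * R + 1 := by
  rcases S.eq_empty_or_nonempty with rfl | hne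
  · simp
    positivity
  · have h1 := abs_le.1 (hS _ (S.min'_mem hne))
    have h2 := abs_le.1 (hS _ (S.max'_mem hne))
    have h3 : S ⊆ Finset.Icc (S.min' hne) (S.max' hne) := fun w hw =>
      Finset.mem_Icc.2 ⟨S.min'_le w hw, S.le_max' w hw⟩
    have h4 := Finset.card_le_card h3
    rw [Nat.card_Icc] at h4
    have h5 : S.min' hne ≤ S.max' hne := S.min'_le _ (S.max'_mem hne)
    have h6 : (S.card : ℝ) ≤ (S.max' hne : ℝ) + 1 - S.min' hne := by
      have h7 : S.card + S.min' hne ≤ S.max' hne + 1 := by omega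
      have h8 : (S.card : ℝ) + S.min' hne ≤ S.max' hne + 1 := by exact_mod_cast h7
      linarith
    linarith [h1.1, h2.2]

open scoped Classical in
/-- the tuples `w` with a member of a thin set near `(α_1 w_1, …, α_d w_d)` -/
lemma count {d : ℕ} (hd : 1 ≤ d) (S : Set (Fin d → ℤ)) {s σ c : ℝ} (hs : 0 ≤ s) (hσ : 0 ≤ σ) (hσ1 : σ ≤ 1)
    (hS : Pool.Agent.N671.DA.Thin S s) (α : Fin d → ℝ) (hα : ∀ i, α i ≠ 0) (hc : 0 ≤ c) {η : ℝ} (hη : 0 < η) :
    ∃ C₀ : ℝ, ∀ X : ℕ, 1 ≤ X → ({w : Fin d → ℕ | (∀ i, 2 ≤ w i ∧ w i ≤ X) ∧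
      w ∈ {w : Fin d → ℕ | ∃ v ∈ S, ∀ i, |(v i : ℝ) - α i * w i| ≤ c * (Finset.univ.sup w : ℕ) ^ σ}}.ncard : ℝ) ≤
        C₀ * (X : ℝ) ^ (s + d * σ + η) := by
  haveI : Nonempty (Fin d) := ⟨⟨0, hd⟩⟩
  obtain ⟨C, hC⟩ := hS η hη
  obtain ⟨A, hA⟩ : ∃ A : ℝ, ∀ i, |α i| + c ≤ A ∧ 1 ≤ A ∧ 2 * (c / |α i|) + 1 ≤ A :=
    ⟨∑ i, (|α i| + c + 1 + (2 * (c / |α i|) + 1)), fun i => by
      have h1 : ∀ j, 0 ≤ |α j| + c + 1 + (2 * (c / |α j|) + 1) := fun j => by positivity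
      have h2 := Finset.single_le_sum (fun j _ => h1 j) (Finset.mem_univ i)
      have h3 : 0 ≤ c / |α i| := by positivity
      have h4 := abs_nonneg (α i)
      refine ⟨?_, ?_, ?_⟩ <;> linarith⟩
  have hA1 : 1 ≤ A := (hA ⟨0, hd⟩).2.1
  have hA0 : 0 < A := by linarith
  refine ⟨|C| * A ^ (s + η) * A ^ d, fun X hX => ?_⟩
  have hX1 : (1 : ℝ) ≤ X := by exact_mod_cast hX
  have hX0 : (0 : ℝ) < X := by linarith
  have hY1 : 1 ≤ A * X := by nlinarith
  have hfin := (Pool.Agent.N671.DA.box_fin (ι := Fin d) (A * X))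
  have hEfin : {v : Fin d → ℤ | v ∈ S ∧ ∀ i, |(v i : ℝ)| ≤ A * X}.Finite := hfin.subset fun v hv => hv.2
  obtain ⟨T, hT⟩ : ∃ T : (Fin d → ℤ) → Finset (Fin d → ℕ), T = fun v : Fin d → ℤ => Fintype.piFinset fun i : Fin d =>
      (Finset.range (X + 1)).filter fun w : ℕ => |(v i : ℝ) - α i * (w : ℝ)| ≤ c * (X : ℝ) ^ σ := ⟨_, rfl⟩
  have hTc : ∀ v, ((T v).card : ℝ) ≤ A ^ d * (X : ℝ) ^ (d * σ) := by
    intro v
    rw [hT]
    simp only
    rw [Fintype.card_piFinset]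
    push_cast
    have h1 : ∀ i ∈ (Finset.univ : Finset (Fin d)),
        ((((Finset.range (X + 1)).filter fun w : ℕ => |(v i : ℝ) - α i * (w : ℝ)| ≤ c * (X : ℝ) ^ σ).card : ℕ) : ℝ) ≤
          A * (X : ℝ) ^ σ := by
      intro i _
      have hai : 0 < |α i| := abs_pos.2 (hα i)
      have hXσ : 1 ≤ (X : ℝ) ^ σ := Real.one_le_rpow hX1 hσ
      have h2 := card_near (x := (v i : ℝ) / α i) (R := c / |α i| * (X : ℝ) ^ σ) (by positivity)
        ((Finset.range (X + 1)).filter fun w : ℕ => |(v i : ℝ) - α i * (w : ℝ)| ≤ c * (X : ℝ) ^ σ) (fun w hw => by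
          have h3 := (Finset.mem_filter.1 hw).2
          have h4 : (w : ℝ) - v i / α i = -((v i : ℝ) - α i * w) / α i := by
            field_simp [hα i]
            ring
          rw [h4, abs_div, abs_neg, div_mul_eq_mul_div, div_le_div_iff_of_pos_right hai]
          exact h3)
      refine h2.trans ?_
      have h5 := (hA i).2.2
      calc 2 * (c / |α i| * (X : ℝ) ^ σ) + 1 ≤ (2 * (c / |α i|) + 1) * (X : ℝ) ^ σ := by nlinarith
        _ ≤ A * (X : ℝ) ^ σ := by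
          apply mul_le_mul_of_nonneg_right h5
          positivity
    refine (Finset.prod_le_prod (fun i _ => Nat.cast_nonneg _) h1).trans (le_of_eq ?_)
    rw [Finset.prod_const, Finset.card_univ, Fintype.card_fin, mul_pow, ← Real.rpow_natCast ((X : ℝ) ^ σ),
      ← Real.rpow_mul hX0.le, mul_comm σ]
  have hsub : {w : Fin d → ℕ | (∀ i, 2 ≤ w i ∧ w i ≤ X) ∧
      w ∈ {w : Fin d → ℕ | ∃ v ∈ S, ∀ i, |(v i : ℝ) - α i * w i| ≤ c * (Finset.univ.sup w : ℕ) ^ σ}} ⊆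
      ((hEfin.toFinset.biUnion T : Finset (Fin d → ℕ)) : Set (Fin d → ℕ)) := by
    rintro w ⟨hw, v, hv, hnear⟩
    have hsup : ((Finset.univ.sup w : ℕ) : ℝ) ≤ X := by
      have : Finset.univ.sup w ≤ X := Finset.sup_le fun i _ => (hw i).2
      exact_mod_cast this
    have hsupσ : c * ((Finset.univ.sup w : ℕ) : ℝ) ^ σ ≤ c * (X : ℝ) ^ σ :=
      mul_le_mul_of_nonneg_left (Real.rpow_le_rpow (Nat.cast_nonneg _) hsup hσ) hc
    rw [Finset.mem_coe, Finset.mem_biUnion]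
    refine ⟨v, ?_, ?_⟩
    · rw [Set.Finite.mem_toFinset]
      refine ⟨hv, fun i => ?_⟩
      have h1 : |α i * (w i : ℝ)| ≤ |α i| * X := by
        rw [abs_mul, abs_of_nonneg (Nat.cast_nonneg (w i) : (0 : ℝ) ≤ w i)]
        exact mul_le_mul_of_nonneg_left (by exact_mod_cast (hw i).2) (abs_nonneg _)
      have h2 : (X : ℝ) ^ σ ≤ X := by
        calc (X : ℝ) ^ σ ≤ (X : ℝ) ^ (1 : ℝ) := Real.rpow_le_rpow_of_exponent_le hX1 hσ1
          _ = X := Real.rpow_one _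
      have h3 : |(v i : ℝ)| ≤ |(v i : ℝ) - α i * w i| + |α i * (w i : ℝ)| := by
        have := abs_add_le ((v i : ℝ) - α i * w i) (α i * w i)
        simpa using this
      calc |(v i : ℝ)| ≤ c * (X : ℝ) ^ σ + |α i| * X := h3.trans (add_le_add ((hnear i).trans hsupσ) h1)
        _ ≤ c * X + |α i| * X := by
          have := mul_le_mul_of_nonneg_left h2 hc
          linarith
        _ = (|α i| + c) * X := by ring
        _ ≤ A * X := mul_le_mul_of_nonneg_right (hA i).1 hX0.le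
    · rw [hT, Fintype.mem_piFinset]
      intro i
      rw [Finset.mem_filter, Finset.mem_range]
      exact ⟨Nat.lt_succ_of_le (hw i).2, (hnear i).trans hsupσ⟩
  have h1 := Set.ncard_le_ncard hsub (Finset.finite_toSet _)
  rw [Set.ncard_coe_finset] at h1
  have h2 : (((hEfin.toFinset.biUnion T).card : ℕ) : ℝ) ≤ hEfin.toFinset.card * (A ^ d * (X : ℝ) ^ (d * σ)) := by
    have h3 : (((hEfin.toFinset.biUnion T).card : ℕ) : ℝ) ≤ ∑ v ∈ hEfin.toFinset, ((T v).card : ℝ) := by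
      exact_mod_cast Finset.card_biUnion_le
    refine h3.trans ((Finset.sum_le_sum fun v _ => hTc v).trans ?_)
    rw [Finset.sum_const, nsmul_eq_mul]
  have h4 : (hEfin.toFinset.card : ℝ) ≤ |C| * (A ^ (s + η) * (X : ℝ) ^ (s + η)) := by
    have h5 := hC (A * X) hY1
    rw [Set.ncard_eq_toFinset_card _ hEfin] at h5
    rw [← Real.mul_rpow hA0.le hX0.le]
    exact h5.trans (mul_le_mul_of_nonneg_right (le_abs_self C) (by positivity))
  calc _ ≤ (((hEfin.toFinset.biUnion T).card : ℕ) : ℝ) := by exact_mod_cast h1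
    _ ≤ hEfin.toFinset.card * (A ^ d * (X : ℝ) ^ (d * σ)) := h2
    _ ≤ |C| * (A ^ (s + η) * (X : ℝ) ^ (s + η)) * (A ^ d * (X : ℝ) ^ (d * σ)) :=
        mul_le_mul_of_nonneg_right h4 (by positivity)
    _ = |C| * A ^ (s + η) * A ^ d * (X : ℝ) ^ (s + d * σ + η) := by
        rw [show s + d * σ + η = (s + η) + d * σ by ring, Real.rpow_add hX0 (s + η) (d * σ)]
        ring

end Pool.Agent.Zk66.NR
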