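import Pool.Agent.Zk66.LinLow
import Pool.Agent.Zk48.AP.Sz

/-!
Szemerédi's theorem relative to the integers without small prime factors in every short interval, and for real intervals together
with Richert's lower bound.
-/

set_option autoImplicit false

namespace Pool.Agent.Zk66.Lin

open Finset Filter Topology Polynomial
open Pool.Agent.Zk41.PY (fn AdmP pol)
open Pool.Agent.Y677.RSZ (rt V)
open Pool.Agent.TH423.SH (PS)
open Pool.Agent.K3h19.RV (Lam)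
open Pool.Agent.Zk48.AP (rho cls mert Lam_pos)

lemma fn_X (x : ℤ) : fn X x = x := by
  unfold fn
  simp

lemma adm_X : AdmP X := by
  intro ℓ hℓ
  refine ⟨1, ?_⟩
  rw [eval_X]
  intro h1
  have h2 : ℓ ∣ 1 := by exact_mod_cast h1
  exact hℓ.one_lt.ne' (Nat.dvd_one.1 h2)

lemma rt_X (ℓ : ℕ) (hℓ : ℓ.Prime) : rt (fn X) ℓ = 1 := by
  unfold rt
  rw [card_eq_one]
  refine ⟨0, ?_⟩
  ext r
  rw [mem_filter, mem_range, mem_singleton, fn_X]
  constructor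
  · rintro ⟨h3, h4⟩
    exact Nat.eq_zero_of_dvd_of_lt (by exact_mod_cast h4) h3
  · rintro rfl
    exact ⟨hℓ.pos, by simp⟩

lemma V_X (H : ℕ) : V (fn X) 1 H = V1 H := by
  unfold V V1
  have h : PS 1 H = (Icc 1 H).filter Nat.Prime := by
    unfold PS
    apply filter_congr
    intro ℓ _
    constructor
    · exact fun h => h.1
    · exact fun h => ⟨h, fun h1 => h.one_lt.ne' (Nat.dvd_one.1 h1)⟩
  rw [h]
  apply prod_congr rfl
  intro ℓ hℓ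
  rw [rt_X _ (mem_filter.1 hℓ).2, Nat.cast_one]

/-- **Szemerédi's theorem relative to the integers without small prime factors**, in every interval below `N` of length `≥ N ^ θ` -/
theorem dense_X (l : ℕ) (θ κ ρ : ℝ) (hθ : 0 < θ) (hκ : 0 < κ) (hρ : 0 < ρ) :
    ∃ B N₀ : ℕ, ∀ N Y H : ℕ, N₀ ≤ N → (N : ℝ) ^ θ ≤ H → Y + H ≤ N →
      ∀ S : Finset ℕ, S ⊆ Ioc Y (Y + H) →
      (∀ k ∈ S, ∀ ℓ : ℕ, ℓ.Prime → ℓ ∣ k → (N : ℝ) ^ ρ ≤ ℓ) →
      κ * (H / Real.log H) ≤ S.card →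
      ∃ a d : ℕ, 1 ≤ d ∧ (d : ℝ) ≤ Real.log N ^ B ∧ ∀ i < l, a + i * d ∈ S := by
  obtain ⟨c₁, C₁, hc₁, hC₁, Y2, HV⟩ := mert
  obtain ⟨G, hG⟩ : ∃ G : ℕ, 1 / θ ≤ G := exists_nat_ge _
  obtain ⟨B, H₁, HP⟩ := pol 1 l G (ρ / 2) (κ / C₁) (by positivity) (by positivity)
  have hcast : Tendsto (fun N : ℕ => (N : ℝ)) atTop atTop := tendsto_natCast_atTop_atTop
  have v1 : ∀ᶠ N : ℕ in atTop, ((H₁ + Y2 + 3 : ℕ) : ℝ) ≤ (N : ℝ) ^ θ :=
    ((tendsto_rpow_atTop hθ).comp hcast).eventually_ge_atTop _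
  obtain ⟨N₁, hN₁⟩ := eventually_atTop.1 v1
  refine ⟨B, N₁ + 2, fun N Y H hN0 hNH hYH S hS hSr hSc => ?_⟩
  have w1 := hN₁ N (by omega)
  have hH : H₁ + Y2 + 3 ≤ H := by exact_mod_cast w1.trans hNH
  have hHN : H ≤ N := by omega
  have hHN' : (H : ℝ) ≤ N := by exact_mod_cast hHN
  have hN2 : (2 : ℝ) ≤ N := by exact_mod_cast (by omega : 2 ≤ N)
  have hN0' : (0 : ℝ) < N := by linarith
  have hH3 : (3 : ℝ) ≤ H := by exact_mod_cast (by omega : 3 ≤ H)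
  have hH0 : (0 : ℝ) < H := by linarith
  have hH1 : (1 : ℝ) ≤ H := by linarith
  have hlH : 0 < Real.log H := Real.log_pos (by linarith)
  have hNG : N ≤ H ^ G := by
    have h1 : (N : ℝ) ≤ ((H ^ G : ℕ) : ℝ) := by
      push_cast
      calc (N : ℝ) = ((N : ℝ) ^ θ) ^ (1 / θ) := by
            rw [← Real.rpow_mul hN0'.le, mul_one_div_cancel hθ.ne', Real.rpow_one]
        _ ≤ (H : ℝ) ^ (1 / θ) := Real.rpow_le_rpow (by positivity) hNH (by positivity)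
        _ ≤ (H : ℝ) ^ (G : ℝ) := Real.rpow_le_rpow_of_exponent_le hH1 hG
        _ = _ := Real.rpow_natCast _ _
    exact_mod_cast h1
  have hcG : ∀ i, |(X : ℤ[X]).coeff i| ≤ (H : ℤ) ^ G := by
    intro i
    have h1 : (1 : ℤ) ≤ (H : ℤ) ^ G := by
      have h2 : 1 ≤ H ^ G := Nat.one_le_pow _ _ (by omega)
      exact_mod_cast h2
    rw [coeff_X]
    split_ifs
    · simpa using h1
    · simp
  have hV := (HV H (by omega)).2
  change V1 H ≤ C₁ / Real.log H at hV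
  obtain ⟨a, d, hd1, hd2, hAP⟩ := HP H (by omega) X Y adm_X natDegree_X_le hcG (by omega)
    (by
      intro n hn
      rw [fn_X]
      have := (mem_Ioc.1 hn).1
      omega)
    S hS
    (by
      intro k hk ℓ hℓ hℓH hℓd
      rw [fn_X] at hℓd
      have h2 := hSr k hk ℓ hℓ (by exact_mod_cast hℓd)
      have h3 : (H : ℝ) ^ (ρ / 2) ≤ (N : ℝ) ^ (ρ / 2) := Real.rpow_le_rpow hH0.le hHN' (by positivity)
      have h4 : (N : ℝ) ^ (ρ / 2) < (N : ℝ) ^ ρ := Real.rpow_lt_rpow_of_exponent_lt (by linarith) (by linarith)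
      linarith)
    (by
      rw [V_X]
      refine le_trans ?_ hSc
      calc κ / C₁ * (H * V1 H) ≤ κ / C₁ * (H * (C₁ / Real.log H)) := by gcongr
        _ = κ * (H / Real.log H) := by
            field_simp)
  refine ⟨a, d, hd1, hd2.trans ?_, hAP⟩
  exact pow_le_pow_left₀ hlH.le (Real.log_le_log hH0 hHN') B

lemma mem_RX (r : ℕ) (z : ℝ) (Y H n : ℕ) : n ∈ RX r z Y H ↔
    n ∈ Ioc Y (Y + H) ∧ n.primeFactorsList.length ≤ r ∧ ∀ ℓ : ℕ, ℓ.Prime → ℓ ∣ n → z ≤ ℓ := by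
  classical
  unfold RX
  rw [mem_filter]

/-- the integers of a real interval -/
lemma int_iff {a b : ℝ} (ha : 0 ≤ a) (hab : a + 1 ≤ b) (n : ℕ) :
    ((a : ℝ) < n ∧ (n : ℝ) < b) ↔ n ∈ Ioc ⌊a⌋₊ (⌊a⌋₊ + (⌈b⌉₊ - 1 - ⌊a⌋₊)) := by
  have h1 : ⌊a⌋₊ + 1 ≤ ⌈b⌉₊ := by
    have h2 : (⌊a⌋₊ : ℝ) < b := lt_of_le_of_lt (Nat.floor_le ha) (by linarith)
    exact Nat.lt_ceil.2 h2
  rw [mem_Ioc, ← Nat.floor_lt ha, ← Nat.lt_ceil]
  omega

/-- the length of the interval -/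
lemma int_len {a b : ℝ} (ha : 0 ≤ a) (hab : a + 1 ≤ b) :
    b - a - 1 ≤ ((⌈b⌉₊ - 1 - ⌊a⌋₊ : ℕ) : ℝ) ∧ ((⌈b⌉₊ - 1 - ⌊a⌋₊ : ℕ) : ℝ) ≤ b - a + 1 ∧
      ((⌊a⌋₊ + (⌈b⌉₊ - 1 - ⌊a⌋₊) : ℕ) : ℝ) ≤ b := by
  have h1 : ⌊a⌋₊ + 1 ≤ ⌈b⌉₊ := by
    have h2 : (⌊a⌋₊ : ℝ) < b := lt_of_le_of_lt (Nat.floor_le ha) (by linarith)
    exact Nat.lt_ceil.2 h2
  have h2 : ((⌈b⌉₊ - 1 - ⌊a⌋₊ : ℕ) : ℝ) = (⌈b⌉₊ : ℝ) - 1 - ⌊a⌋₊ := by
    rw [Nat.cast_sub (by omega), Nat.cast_sub (by omega)]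
    push_cast
    ring
  have h3 := Nat.le_ceil b
  have h4 := Nat.ceil_lt_add_one (show 0 ≤ b by linarith)
  have h5 := Nat.floor_le ha
  have h6 := Nat.lt_floor_add_one a
  rw [Nat.cast_add, h2]
  refine ⟨by linarith, by linarith, by linarith⟩

/-- the integers in `(a, b)` all of whose prime factors are at least `z` -/
def Ro (z a b : ℝ) : Set ℕ := {n | a < n ∧ (n : ℝ) < b ∧ ∀ p : ℕ, p.Prime → p ∣ n → z ≤ p}

/-- those with at most `r` prime factors -/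
def Al (r : ℕ) (z a b : ℝ) : Set ℕ := {n ∈ Ro z a b | n.primeFactorsList.length ≤ r}

lemma Ro_fin (z a b : ℝ) : (Ro z a b).Finite := by
  apply (Set.finite_lt_nat ⌈b⌉₊).subset
  rintro n ⟨-, h, -⟩
  exact Nat.lt_ceil.2 h

/-- the lower bound of Richert in real intervals -/
theorem low_R (r : ℕ) (hr : 1 ≤ r) (θ : ℝ) (hθ : 0 < θ) (h : 1 < θ * Lam r) :
    ∃ c : ℝ, 0 < c ∧ ∃ x₀ : ℝ, ∀ x : ℝ, x₀ ≤ x → ∀ a b : ℝ, x ≤ a → b ≤ 2 * x → x ^ θ ≤ b - a →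
      c * ((b - a) / Real.log x) ≤ ((Al r (x ^ (1 / (4 * Lam r))) a b).ncard : ℝ) := by
  have hL1 := Lam_pos r hr
  have hL0 : 0 < Lam r := by linarith
  obtain ⟨θ', hθ'⟩ : ∃ θ' : ℝ, θ' = (θ + 1 / Lam r) / 2 := ⟨_, rfl⟩
  have hLθ : 1 / Lam r < θ := by
    rw [div_lt_iff₀ hL0]
    exact h
  have hL1' : 0 < 1 / Lam r := by positivity
  have hθ'0 : 0 < θ' := by rw [hθ']; linarith
  have hθ'θ : θ' < θ := by rw [hθ']; linarith
  have hθ'L : 1 < θ' * Lam r := by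
    rw [← div_lt_iff₀ hL0, hθ']
    linarith
  obtain ⟨c, hc, H₀, hlow⟩ := low_X r hr θ' hθ'0 hθ'L
  have v1 : ∀ᶠ x : ℝ in atTop, (H₀ : ℝ) + 4 * 2 ^ θ' ≤ x ^ (θ - θ') :=
    (tendsto_rpow_atTop (by linarith)).eventually_ge_atTop _
  obtain ⟨x₀, hx₀⟩ := eventually_atTop.1 v1
  refine ⟨c / 4, by positivity, max x₀ 2, fun x hx a b ha hb hab => ?_⟩
  have w1 := hx₀ x ((le_max_left _ _).trans hx)
  have hx2 : 2 ≤ x := (le_max_right _ _).trans hx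
  have hx0 : 0 < x := by linarith
  have h2θ : (0 : ℝ) < 2 ^ θ' := by positivity
  have h2θ1 : (1 : ℝ) ≤ 2 ^ θ' := Real.one_le_rpow (by norm_num) hθ'0.le
  have hxθ' : 1 ≤ x ^ θ' := Real.one_le_rpow (by linarith) hθ'0.le
  have hxs : x ^ θ = x ^ (θ - θ') * x ^ θ' := by
    rw [← Real.rpow_add hx0, sub_add_cancel]
  have hbig : ((H₀ : ℝ) + 4 * 2 ^ θ') * x ^ θ' ≤ b - a := by
    refine le_trans ?_ hab
    rw [hxs]
    exact mul_le_mul_of_nonneg_right w1 (by positivity)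
  have hH00 : (0 : ℝ) ≤ H₀ := Nat.cast_nonneg _
  have hb4 : 4 * (2 ^ θ' * x ^ θ') ≤ b - a := by
    have := mul_nonneg hH00 (show (0 : ℝ) ≤ x ^ θ' by positivity)
    linarith [hbig]
  have h22 : (1 : ℝ) ≤ 2 ^ θ' * x ^ θ' := one_le_mul_of_one_le_of_one_le h2θ1 hxθ'
  have hba4 : 4 ≤ b - a := by linarith
  have hbaH : (H₀ : ℝ) + 4 ≤ b - a := by
    have h3 : (H₀ : ℝ) * 1 ≤ H₀ * x ^ θ' := mul_le_mul_of_nonneg_left hxθ' hH00
    linarith [hbig]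
  obtain ⟨l1, l2, l3⟩ := int_len (a := a) (b := b) (by linarith) (by linarith)
  have hiff := int_iff (a := a) (b := b) (by linarith) (by linarith)
  obtain ⟨Y, hY⟩ : ∃ Y : ℕ, Y = ⌊a⌋₊ := ⟨_, rfl⟩
  obtain ⟨H, hH⟩ : ∃ H : ℕ, H = ⌈b⌉₊ - 1 - ⌊a⌋₊ := ⟨_, rfl⟩
  rw [← hH] at l1 l2 l3 hiff
  rw [← hY] at l3 hiff
  have hHh : (b - a) / 2 ≤ H := by linarith
  have hHH : H₀ ≤ H := by
    have : (H₀ : ℝ) ≤ H := by linarith
    exact_mod_cast this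
  have hN : ((Y + H : ℕ) : ℝ) ≤ 2 * x := l3.trans hb
  have hNH : ((Y + H : ℕ) : ℝ) ^ θ' ≤ H := by
    calc ((Y + H : ℕ) : ℝ) ^ θ' ≤ (2 * x) ^ θ' := Real.rpow_le_rpow (by positivity) hN hθ'0.le
      _ = 2 ^ θ' * x ^ θ' := Real.mul_rpow (by norm_num) hx0.le
      _ ≤ H := by linarith
  have hfin := hlow (Y + H) Y H hHH hNH le_rfl
  have hxH : x ^ θ' ≤ H := by
    have h3 : 1 * x ^ θ' ≤ 2 ^ θ' * x ^ θ' := mul_le_mul_of_nonneg_right h2θ1 (by positivity)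
    linarith
  have hH0 : (0 : ℝ) < H := by linarith
  have hH1 : (1 : ℝ) < H := by linarith
  have hlH : 0 < Real.log H := Real.log_pos hH1
  have hlx : 0 < Real.log x := Real.log_pos (by linarith)
  -- the size of the prime factors
  have hz : x ^ (1 / (4 * Lam r)) ≤ (H : ℝ) ^ ((1 / (θ' * Lam r) + 1) / 8) := by
    have e1 : θ' * ((1 / (θ' * Lam r) + 1) / 8) = (1 / Lam r + θ') / 8 := by
      field_simp
    calc x ^ (1 / (4 * Lam r)) ≤ x ^ ((1 / Lam r + θ') / 8) := by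
          apply Real.rpow_le_rpow_of_exponent_le (by linarith)
          have e2 : 1 / (4 * Lam r) = (1 / Lam r) / 4 := by
            field_simp
          rw [e2, hθ']
          linarith
      _ = (x ^ θ') ^ ((1 / (θ' * Lam r) + 1) / 8) := by rw [← Real.rpow_mul hx0.le, e1]
      _ ≤ _ := Real.rpow_le_rpow (by positivity) hxH (by positivity)
  have hsub : (↑(RX r ((H : ℝ) ^ ((1 / (θ' * Lam r) + 1) / 8)) Y H) : Set ℕ) ⊆ Al r (x ^ (1 / (4 * Lam r))) a b := by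
    intro n hn
    rw [mem_coe, mem_RX] at hn
    have h1 := (hiff n).2 hn.1
    exact ⟨⟨h1.1, h1.2, fun p hp hpn => hz.trans (hn.2.2 p hp hpn)⟩, hn.2.1⟩
  have hcard := Set.ncard_le_ncard hsub ((Ro_fin _ a b).subset (Set.sep_subset _ _))
  rw [Set.ncard_coe_finset] at hcard
  refine le_trans ?_ (hfin.trans (by exact_mod_cast hcard))
  have hlog : Real.log H ≤ 2 * Real.log x := by
    have h1 : (H : ℝ) ≤ x ^ 2 := by
      have h2 : (H : ℝ) ≤ ((Y + H : ℕ) : ℝ) := by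
        push_cast
        have : (0 : ℝ) ≤ Y := Nat.cast_nonneg _
        linarith
      nlinarith
    calc Real.log H ≤ Real.log (x ^ 2) := Real.log_le_log hH0 h1
      _ = 2 * Real.log x := by rw [Real.log_pow]; norm_num
  have h5 : ((b - a) / 2) / (2 * Real.log x) ≤ H / Real.log H :=
    div_le_div₀ hH0.le hHh hlH hlog
  calc c / 4 * ((b - a) / Real.log x) = c * (((b - a) / 2) / (2 * Real.log x)) := by
        field_simp
        ring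
    _ ≤ c * (H / Real.log H) := mul_le_mul_of_nonneg_left h5 hc.le

/-- progressions in dense sets of integers without small prime factors, real intervals -/
theorem dense_R (l : ℕ) (θ κ ρ : ℝ) (hθ : 0 < θ) (hκ : 0 < κ) (hρ : 0 < ρ) :
    ∃ B : ℕ, ∃ x₀ : ℝ, ∀ x : ℝ, x₀ ≤ x → ∀ a b : ℝ, x ≤ a → b ≤ 2 * x → x ^ θ ≤ b - a →
      ∀ S : Set ℕ, S ⊆ Ro (x ^ ρ) a b → κ * ((b - a) / Real.log x) ≤ (S.ncard : ℝ) →
      ∃ n d : ℕ, 1 ≤ d ∧ (d : ℝ) ≤ Real.log x ^ B ∧ ∀ i < l, n + i * d ∈ S := by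
  classical
  obtain ⟨B, N₀, hD⟩ := dense_X l (θ / 2) (κ * (θ / 2) / 2) (ρ / 2) (by positivity) (by positivity) (by positivity)
  have v1 : ∀ᶠ x : ℝ in atTop, (N₀ : ℝ) + 4 * 2 ^ (θ / 2) ≤ x ^ (θ / 2) :=
    (tendsto_rpow_atTop (by linarith)).eventually_ge_atTop _
  obtain ⟨x₀, hx₀⟩ := eventually_atTop.1 (v1.and ((eventually_ge_atTop (max 2 (N₀ : ℝ))).and
    (Real.tendsto_log_atTop.eventually_ge_atTop 2)))
  refine ⟨2 * B, x₀, fun x hx a b ha hb hab S hS hSc => ?_⟩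
  obtain ⟨w1, w2, w3⟩ := hx₀ x hx
  have hx2 : 2 ≤ x := (le_max_left _ _).trans w2
  have hxN : (N₀ : ℝ) ≤ x := (le_max_right _ _).trans w2
  have hx0 : 0 < x := by linarith
  have hθ2 : 0 < θ / 2 := by positivity
  have h2θ : (0 : ℝ) < 2 ^ (θ / 2) := by positivity
  have h2θ1 : (1 : ℝ) ≤ 2 ^ (θ / 2) := Real.one_le_rpow (by norm_num) hθ2.le
  have hxθ' : 1 ≤ x ^ (θ / 2) := Real.one_le_rpow (by linarith) hθ2.le
  have hxs : x ^ θ = x ^ (θ / 2) * x ^ (θ / 2) := by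
    rw [← Real.rpow_add hx0, add_halves]
  have hN00 : (0 : ℝ) ≤ N₀ := Nat.cast_nonneg _
  have hb4 : 4 * (2 ^ (θ / 2) * x ^ (θ / 2)) ≤ b - a := by
    refine le_trans ?_ hab
    rw [hxs, ← mul_assoc]
    exact mul_le_mul_of_nonneg_right (by linarith) (by positivity)
  have h22 : (1 : ℝ) ≤ 2 ^ (θ / 2) * x ^ (θ / 2) := one_le_mul_of_one_le_of_one_le h2θ1 hxθ'
  have hba4 : 4 ≤ b - a := by linarith
  obtain ⟨l1, l2, l3⟩ := int_len (a := a) (b := b) (by linarith) (by linarith)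
  have hiff := int_iff (a := a) (b := b) (by linarith) (by linarith)
  obtain ⟨Y, hY⟩ : ∃ Y : ℕ, Y = ⌊a⌋₊ := ⟨_, rfl⟩
  obtain ⟨H, hH⟩ : ∃ H : ℕ, H = ⌈b⌉₊ - 1 - ⌊a⌋₊ := ⟨_, rfl⟩
  rw [← hH] at l1 l2 l3 hiff
  rw [← hY] at l3 hiff
  have hHh : (b - a) / 2 ≤ H := by linarith
  have hN : ((Y + H : ℕ) : ℝ) ≤ 2 * x := l3.trans hb
  have hNH : ((Y + H : ℕ) : ℝ) ^ (θ / 2) ≤ H := by
    calc ((Y + H : ℕ) : ℝ) ^ (θ / 2) ≤ (2 * x) ^ (θ / 2) := Real.rpow_le_rpow (by positivity) hN hθ2.le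
      _ = 2 ^ (θ / 2) * x ^ (θ / 2) := Real.mul_rpow (by norm_num) hx0.le
      _ ≤ H := by linarith
  have hxH : x ^ (θ / 2) ≤ H := by
    have h3 : 1 * x ^ (θ / 2) ≤ 2 ^ (θ / 2) * x ^ (θ / 2) := mul_le_mul_of_nonneg_right h2θ1 (by positivity)
    linarith
  have hH0 : (0 : ℝ) < H := by linarith
  have hH1 : (1 : ℝ) < H := by linarith
  have hlH : 0 < Real.log H := Real.log_pos hH1
  have hlx : 0 < Real.log x := Real.log_pos (by linarith)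
  have hNx : x ≤ ((Y + H : ℕ) : ℝ) := by
    have h3 : ((Y + H : ℕ) : ℝ) = (⌈b⌉₊ : ℝ) - 1 := by
      have h1 : ⌊a⌋₊ + 1 ≤ ⌈b⌉₊ := by
        have h2 : (⌊a⌋₊ : ℝ) < b := lt_of_le_of_lt (Nat.floor_le (by linarith)) (by linarith)
        exact Nat.lt_ceil.2 h2
      have h4 : Y + H = ⌈b⌉₊ - 1 := by omega
      rw [h4, Nat.cast_sub (by omega), Nat.cast_one]
    rw [h3]
    have := Nat.le_ceil b
    linarith
  have hNx2 : ((Y + H : ℕ) : ℝ) ≤ x ^ 2 := by nlinarith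
  have hSfin : S.Finite := (Ro_fin _ a b).subset hS
  obtain ⟨n, d, hd1, hd2, hAP⟩ := hD (Y + H) Y H (by exact_mod_cast hxN.trans hNx) hNH le_rfl hSfin.toFinset
    (by
      intro n hn
      rw [Set.Finite.mem_toFinset] at hn
      exact (hiff n).1 ⟨(hS hn).1, (hS hn).2.1⟩)
    (by
      intro n hn ℓ hℓ hℓn
      rw [Set.Finite.mem_toFinset] at hn
      refine le_trans ?_ ((hS hn).2.2 ℓ hℓ hℓn)
      calc ((Y + H : ℕ) : ℝ) ^ (ρ / 2) ≤ (x ^ 2) ^ (ρ / 2) := Real.rpow_le_rpow (by positivity) hNx2 (by positivity)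
        _ = x ^ ρ := by
            rw [← Real.rpow_natCast, ← Real.rpow_mul hx0.le]
            congr 1
            push_cast
            ring)
    (by
      rw [← Set.ncard_eq_toFinset_card S hSfin]
      refine le_trans ?_ hSc
      have h1 : θ / 2 * Real.log x ≤ Real.log H := by
        rw [← Real.log_rpow hx0]
        exact Real.log_le_log (by positivity) hxH
      have h2 : (H : ℝ) ≤ 2 * (b - a) := by linarith
      have h3 : (H : ℝ) / Real.log H ≤ (2 * (b - a)) / (θ / 2 * Real.log x) :=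
        div_le_div₀ (by linarith) h2 (by positivity) h1
      calc κ * (θ / 2) / 2 * ((H : ℝ) / Real.log H) ≤ κ * (θ / 2) / 2 * ((2 * (b - a)) / (θ / 2 * Real.log x)) :=
            mul_le_mul_of_nonneg_left h3 (by positivity)
        _ = κ * ((b - a) / Real.log x) := by
            field_simp)
  refine ⟨n, d, hd1, hd2.trans ?_, fun i hi => by
    have := hAP i hi
    rwa [Set.Finite.mem_toFinset] at this⟩
  have h1 : Real.log ((Y + H : ℕ) : ℝ) ≤ Real.log x ^ 2 := by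
    calc Real.log ((Y + H : ℕ) : ℝ) ≤ Real.log (x ^ 2) := Real.log_le_log (by linarith) hNx2
      _ = 2 * Real.log x := by rw [Real.log_pow]; norm_num
      _ ≤ Real.log x * Real.log x := mul_le_mul_of_nonneg_right w3 hlx.le
      _ = _ := by ring
  have h0 : 0 ≤ Real.log ((Y + H : ℕ) : ℝ) := Real.log_nonneg (by linarith)
  calc Real.log ((Y + H : ℕ) : ℝ) ^ B ≤ (Real.log x ^ 2) ^ B := pow_le_pow_left₀ h0 h1 B
    _ = Real.log x ^ (2 * B) := by rw [← pow_mul]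

end Pool.Agent.Zk66.Lin
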