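import Pool.Agent.Zk48.AP.Low

/-!
Richert's theorem for the integers themselves, in every interval of length at least `N ^ θ` below `N`; adapted from the text of
helper48 for the progressions `2 k p + 1` (`Agent/Zk48/AP/Low`).
-/

set_option autoImplicit false

namespace Pool.Agent.Zk66.Lin

open Finset Filter Topology
open Pool.Agent.Y677.RSZ (ev_log)
open Pool.Agent.W23.DC
open Pool.Agent.Y882
open Pool.Agent.Y882.KW
open Pool.Agent.K3h19.RV (Lam)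
open Pool.Agent.Zk48.AP (rho cnt rem mer mert pr_facts pr_sq Lam_pos)

/-- the sieve product -/
noncomputable def V1 (H : ℕ) : ℝ := ∏ ℓ ∈ (Icc 1 H).filter Nat.Prime, (1 - 1 / (ℓ : ℝ))

open Classical in
/-- the `n` in `(Y, Y + H]` with at most `r` prime factors, all at least `z` -/
noncomputable def RX (r : ℕ) (z : ℝ) (Y H : ℕ) : Finset ℕ :=
  (Ioc Y (Y + H)).filter (fun n => n.primeFactorsList.length ≤ r ∧ ∀ ℓ : ℕ, ℓ.Prime → ℓ ∣ n → z ≤ ℓ)

lemma rho_one {ℓ : ℕ} (hℓ : ℓ.Prime) : rho 1 ℓ = 1 := by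
  unfold rho
  rw [if_neg]
  intro h
  exact hℓ.one_lt.ne' (Nat.dvd_one.1 h)

lemma V_one (H : ℕ) : ∏ ℓ ∈ (Icc 1 H).filter Nat.Prime, (1 - (rho 1 ℓ : ℝ) / ℓ) = V1 H := by
  unfold V1
  apply prod_congr rfl
  intro ℓ hℓ
  rw [rho_one (mem_filter.1 hℓ).2, Nat.cast_one]

set_option maxHeartbeats 1600000 in
/-- **Richert's theorem**, in terms of the length of the interval -/
theorem low_X (r : ℕ) (hr : 1 ≤ r) (θ : ℝ) (hθ : 0 < θ) (h : 1 < θ * Lam r) :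
    ∃ c : ℝ, 0 < c ∧ ∃ H₀ : ℕ, ∀ N Y H : ℕ, H₀ ≤ H → (N : ℝ) ^ θ ≤ H → Y + H ≤ N →
      c * (H / Real.log H) ≤ (RX r ((H : ℝ) ^ ((1 / (θ * Lam r) + 1) / 8)) Y H).card := by
  classical
  have hL1 := Lam_pos r hr
  have hL0 : 0 < Lam r := by linarith
  obtain ⟨g, hgd⟩ : ∃ g : ℝ, g = 1 / θ := ⟨_, rfl⟩
  have hg0 : 0 < g := by rw [hgd]; positivity
  have hgθ : θ * g = 1 := by rw [hgd]; field_simp
  have hgL : g / Lam r < 1 := by
    rw [div_lt_one hL0, hgd, div_lt_iff₀ hθ]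
    linarith
  have hgL0 : 0 < g / Lam r := by positivity
  obtain ⟨τ, hτd⟩ : ∃ τ : ℝ, τ = (g / Lam r + 1) / 2 := ⟨_, rfl⟩
  have hτ0 : 0 < τ := by rw [hτd]; positivity
  have hτ1 : τ < 1 := by rw [hτd]; linarith
  have hτL : g < τ * Lam r := by
    have h1 : g / Lam r < τ := by rw [hτd]; linarith
    rwa [div_lt_iff₀ hL0] at h1
  have hτ4 : (1 / (θ * Lam r) + 1) / 8 = τ / 4 := by
    rw [hτd, hgd]
    field_simp
    ring
  rw [hτ4]
  obtain ⟨υ, lam, S, hτυ, hυτ, hlam, hgS, hrS, hint⟩ := Pool.Agent.Zk41.P4.richertD r hr g τ hg0 hτ0 hτL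
  have hυ0 : 0 < υ := by linarith
  obtain ⟨ε, hεd⟩ : ∃ ε : ℝ, ε = (1 - τ) / 8 := ⟨_, rfl⟩
  have hε0 : 0 < ε := by rw [hεd]; linarith
  obtain ⟨δ, ε₁, η, hδ, hε₁, hε₁ζ, hε₁β, hη, Y0, HC⟩ :=
    core4 1 τ (τ / 4) υ lam (lam / υ) (τ + ε) 1 ε (by linarith) (by linarith) (by linarith) (by linarith) hτυ hυτ
      hlam.le (by positivity) (by rw [div_mul_cancel₀ _ hυ0.ne']) hint (by linarith) one_pos hε0
  obtain ⟨Y1, HM⟩ := mer ε₁ υ η 1 hε₁ (by linarith) hη zero_le_one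
  obtain ⟨c₁, C₁, hc₁, hC₁, Y2, HV⟩ := mert
  -- numerical conditions
  have hcast : Tendsto (fun N : ℕ => (N : ℝ)) atTop atTop := tendsto_natCast_atTop_atTop
  have v1 := ev_log 1 5 ε hε0
  have v3 : ∀ᶠ N : ℕ in atTop, (2 : ℝ) ≤ (N : ℝ) ^ (τ / 4) :=
    ((tendsto_rpow_atTop (by linarith)).comp hcast).eventually_ge_atTop _
  have v4 := ev_log 1 (16 / (δ * c₁)) (τ / 4) (by linarith)
  have v5 := ev_log 1 (8 / (δ * c₁)) (1 - υ) (by linarith)
  obtain ⟨N₁, hN₁⟩ := eventually_atTop.1 (v1.and (v3.and (v4.and (v5.and (eventually_ge_atTop (Y0 + Y1 + Y2 + 3))))))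
  refine ⟨δ / 2 * c₁, by positivity, N₁, fun N Y H hH0 hNH hYH => ?_⟩
  obtain ⟨w1, w3, w4, w5, w8⟩ := hN₁ H hH0
  rw [pow_one] at w1 w4 w5
  have hH3 : (3 : ℝ) ≤ H := by exact_mod_cast (by omega : 3 ≤ H)
  have hH0' : (0 : ℝ) < H := by linarith
  have hH1 : (1 : ℝ) ≤ H := by linarith
  have hlH : 0 < Real.log H := Real.log_pos (by linarith)
  -- the size of the integers
  have hNg : (N : ℝ) ≤ (H : ℝ) ^ g := by
    have hN0 : (0 : ℝ) ≤ N := Nat.cast_nonneg _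
    calc (N : ℝ) = ((N : ℝ) ^ θ) ^ g := by rw [← Real.rpow_mul hN0, hgθ, Real.rpow_one]
      _ ≤ (H : ℝ) ^ g := Real.rpow_le_rpow (by positivity) hNH hg0.le
  obtain ⟨c, hcL, hcD, hcM⟩ := HC H (by omega)
  obtain ⟨a, ha⟩ : ∃ a : ℕ → ℕ, ∀ j : ℕ, a j = 1 * (Y + j) + 0 := ⟨_, fun _ => rfl⟩
  have hPZ : ∀ ℓ ∈ PZ H υ, ℓ.Prime := by
    intro ℓ hℓ
    unfold PZ at hℓ
    rw [mem_filter] at hℓ
    exact hℓ.2.1
  have hrem : |∑ T ∈ (PZ H υ).powerset, c T * ((((Icc 1 H).filter (fun j => ∏ ℓ ∈ T, ℓ ∣ a j)).card : ℝ) -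
          (Icc 1 H).card * ∏ ℓ ∈ T, ((rho 1 ℓ : ℝ) / ℓ))| ≤ (Icc 1 H).card * (H : ℝ) ^ (-ε) := by
    have h1 := rem (PZ H υ) hPZ c (5 * Real.log H) ((H : ℝ) ^ (τ + ε)) 1 0 Y H (Nat.coprime_one_right _)
      (by positivity) (by positivity) hcL hcD
    simp_rw [← ha] at h1
    refine h1.trans ?_
    rw [Nat.card_Icc, Nat.add_sub_cancel]
    calc 5 * Real.log H * (H : ℝ) ^ (τ + ε) ≤ (H : ℝ) ^ ε * (H : ℝ) ^ (τ + ε) := by gcongr
      _ = (H : ℝ) ^ (τ + 2 * ε) := by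
          rw [← Real.rpow_add hH0']
          congr 1
          ring
      _ ≤ (H : ℝ) ^ (1 - ε) := by
          apply Real.rpow_le_rpow_of_exponent_le hH1
          rw [hεd]
          linarith
      _ = H * (H : ℝ) ^ (-ε) := by
          rw [sub_eq_add_neg, Real.rpow_add hH0', Real.rpow_one]
  have hmain := hcM (Icc 1 H) a (rho 1) H (by rw [Real.rpow_one])
    (fun ℓ _ => by unfold rho; split_ifs <;> omega)
    (fun ℓ hℓ => by have := hℓ.two_le; unfold rho; split_ifs <;> omega)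
    (HM H (by omega) 1 one_pos (by rw [Real.rpow_one, Nat.cast_one]; exact hH1)) hrem
  rw [Nat.card_Icc, Nat.add_sub_cancel, V_one] at hmain
  have hV := (HV H (by omega)).1
  change c₁ / Real.log H ≤ V1 H at hV
  have hHL : c₁ * (H / Real.log H) ≤ H * V1 H := by
    calc c₁ * (H / Real.log H) = H * (c₁ / Real.log H) := by ring
      _ ≤ _ := mul_le_mul_of_nonneg_left hV hH0'.le
  -- the squares
  obtain ⟨B, hB⟩ : ∃ B : Finset ℕ, B = (Icc 1 H).filter (fun j : ℕ => ∃ q ∈ pr H (τ / 4) υ, q ^ 2 ∣ a j) := ⟨_, rfl⟩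
  have hBc : (B.card : ℝ) ≤ δ * c₁ / 4 * (H / Real.log H) := by
    have h1 : B.card ≤ ∑ q ∈ pr H (τ / 4) υ, ((Icc 1 H).filter (fun j : ℕ => q ^ 2 ∣ a j)).card := by
      refine (Finset.card_le_card (t := (pr H (τ / 4) υ).biUnion
        (fun q => (Icc 1 H).filter (fun j : ℕ => q ^ 2 ∣ a j))) ?_).trans card_biUnion_le
      intro j hj
      rw [hB, mem_filter] at hj
      obtain ⟨hj1, q, hq, hqd⟩ := hj
      rw [mem_biUnion]
      exact ⟨q, hq, mem_filter.2 ⟨hj1, hqd⟩⟩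
    have h2 : ∀ q ∈ pr H (τ / 4) υ, ((((Icc 1 H).filter (fun j : ℕ => q ^ 2 ∣ a j)).card : ℕ) : ℝ) ≤
        H * (1 / (q : ℝ) ^ 2) + 1 := by
      intro q hq
      obtain ⟨h3, h4, h5, h6⟩ := pr_facts (by omega) hq
      have h7 := cnt (q ^ 2) 1 0 Y H (pow_pos h3.pos 2) (Nat.coprime_one_left _)
      simp_rw [← ha] at h7
      have h8 := (abs_le.1 h7).2
      push_cast at h8
      rw [mul_one_div]
      linarith
    have h3 : (B.card : ℝ) ≤ ∑ q ∈ pr H (τ / 4) υ, (H * (1 / (q : ℝ) ^ 2) + 1) := by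
      calc (B.card : ℝ) ≤ ∑ q ∈ pr H (τ / 4) υ, ((((Icc 1 H).filter (fun j : ℕ => q ^ 2 ∣ a j)).card : ℕ) : ℝ) := by
            exact_mod_cast h1
        _ ≤ _ := sum_le_sum h2
    have h4 : ∑ q ∈ pr H (τ / 4) υ, ((H : ℝ) * (1 / (q : ℝ) ^ 2) + 1) =
        (H : ℝ) * ∑ q ∈ pr H (τ / 4) υ, 1 / (q : ℝ) ^ 2 + ((pr H (τ / 4) υ).card : ℝ) := by
      rw [mul_sum, sum_add_distrib, sum_const, nsmul_eq_mul, mul_one]
    have h5 := pr_sq (Y := H) (by omega) (τ / 4) υ w3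
    have h6 : ((pr H (τ / 4) υ).card : ℝ) ≤ (H : ℝ) ^ υ := by
      have h7 : pr H (τ / 4) υ ⊆ Icc 1 ⌊(H : ℝ) ^ υ⌋₊ := by
        intro q hq
        obtain ⟨g3, g4, g5, g6⟩ := pr_facts (by omega) hq
        rw [mem_Icc]
        exact ⟨g3.one_le, Nat.le_floor g6.le⟩
      calc ((pr H (τ / 4) υ).card : ℝ) ≤ ((Icc 1 ⌊(H : ℝ) ^ υ⌋₊).card : ℝ) := by exact_mod_cast Finset.card_le_card h7
        _ = (⌊(H : ℝ) ^ υ⌋₊ : ℝ) := by rw [Nat.card_Icc, Nat.add_sub_cancel]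
        _ ≤ _ := Nat.floor_le (by positivity)
    rw [h4] at h3
    refine h3.trans ?_
    have hNζ : (0 : ℝ) < (H : ℝ) ^ (τ / 4) := by positivity
    have hdc : 0 < δ * c₁ := by positivity
    have g1 : (H : ℝ) * (2 / (H : ℝ) ^ (τ / 4)) ≤ δ * c₁ / 8 * (H / Real.log H) := by
      have g2 : 16 * Real.log H ≤ (H : ℝ) ^ (τ / 4) * (δ * c₁) := by
        rw [div_mul_eq_mul_div, div_le_iff₀ hdc] at w4
        exact w4
      rw [show (H : ℝ) * (2 / (H : ℝ) ^ (τ / 4)) = (2 * H) / (H : ℝ) ^ (τ / 4) by ring,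
        show δ * c₁ / 8 * (H / Real.log H) = (δ * c₁ * H / 8) / Real.log H by ring,
        div_le_div_iff₀ hNζ hlH]
      linarith [mul_le_mul_of_nonneg_right g2 hH0'.le]
    have g3 : (H : ℝ) ^ υ ≤ δ * c₁ / 8 * (H / Real.log H) := by
      have g4 : 8 * Real.log H ≤ (H : ℝ) ^ (1 - υ) * (δ * c₁) := by
        rw [div_mul_eq_mul_div, div_le_iff₀ hdc] at w5
        exact w5
      have g5 : (H : ℝ) ^ (1 - υ) * (H : ℝ) ^ υ = H := by
        rw [← Real.rpow_add hH0', sub_add_cancel, Real.rpow_one]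
      rw [show δ * c₁ / 8 * (H / Real.log H) = (δ * c₁ * H / 8) / Real.log H by ring, le_div_iff₀ hlH]
      have g6 := mul_le_mul_of_nonneg_right g4 (show 0 ≤ (H : ℝ) ^ υ by positivity)
      have g7 : (H : ℝ) ^ (1 - υ) * (δ * c₁) * (H : ℝ) ^ υ = δ * c₁ * H := by
        rw [mul_right_comm, g5]
        ring
      linarith
    have g8 : (H : ℝ) * ∑ q ∈ pr H (τ / 4) υ, 1 / (q : ℝ) ^ 2 + ((pr H (τ / 4) υ).card : ℝ) ≤
        H * (2 / (H : ℝ) ^ (τ / 4)) + (H : ℝ) ^ υ := by gcongr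
    linarith
  -- the good points
  obtain ⟨W, hW⟩ : ∃ W : Finset ℕ, W = (Icc 1 H).filter (fun j => 0 < WW H (τ / 4) υ lam (lam / υ) (a j)) := ⟨_, rfl⟩
  have hmain' : δ * H * V1 H ≤ (W.card : ℝ) := by
    rw [hW]
    exact hmain
  have hsub : W ⊆ ((Icc 1 H).filter (fun j => Y + j ∈ RX r ((H : ℝ) ^ (τ / 4)) Y H)) ∪ B := by
    intro j hj
    rw [hW, mem_filter] at hj
    obtain ⟨hj1, hj2⟩ := hj
    by_cases hjB : j ∈ B
    · exact mem_union_right _ hjB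
    apply mem_union_left
    have hjI := mem_Icc.1 hj1
    have hak : a j = Y + j := by
      rw [ha]
      ring
    have hsz : ((a j : ℕ) : ℝ) ≤ (H : ℝ) ^ S := by
      calc ((a j : ℕ) : ℝ) ≤ (N : ℝ) := by
            rw [hak]
            exact_mod_cast (by omega : Y + j ≤ N)
        _ ≤ (H : ℝ) ^ g := hNg
        _ ≤ (H : ℝ) ^ S := Real.rpow_le_rpow_of_exponent_le hH1 hgS.le
    have halm := almost H (by omega) (τ / 4) υ lam S r hτυ hυ0 (by linarith) hlam hrS (a j)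
      (by rw [hak]; omega) hsz hj2 (by
        intro q hq hqd
        apply hjB
        rw [hB, mem_filter]
        exact ⟨hj1, q, hq, hqd⟩)
    rw [hak] at halm
    rw [mem_filter]
    refine ⟨hj1, ?_⟩
    unfold RX
    rw [mem_filter, mem_Ioc]
    exact ⟨⟨by omega, by omega⟩, halm.1, halm.2⟩
  have hinj : ((Icc 1 H).filter (fun j => Y + j ∈ RX r ((H : ℝ) ^ (τ / 4)) Y H)).card ≤
      (RX r ((H : ℝ) ^ (τ / 4)) Y H).card := by
    apply card_le_card_of_injOn (fun j => Y + j)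
    · intro j hj
      rw [mem_coe, mem_filter] at hj
      exact hj.2
    · intro i _ j _ hij
      exact Nat.add_left_cancel hij
  have hcard : (W.card : ℝ) ≤ (RX r ((H : ℝ) ^ (τ / 4)) Y H).card + B.card := by
    have h1 := (Finset.card_le_card hsub).trans (card_union_le _ _)
    have h3 : W.card ≤ (RX r ((H : ℝ) ^ (τ / 4)) Y H).card + B.card := by omega
    exact_mod_cast h3
  have hfin := mul_le_mul_of_nonneg_left hHL hδ.le
  have hfin2 : 0 ≤ δ * c₁ * (H / Real.log H) := by positivity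
  linarith

end Pool.Agent.Zk66.Lin
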