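import Mathlib

/-!
The number of the sums `x_1 ^ k_1 + ⋯ + x_s ^ k_s` up to `X`, for mixed exponents and variables from given sets (diminishing ranges).
-/

set_option autoImplicit false

namespace Pool.Agent.Zk66.Mix

open Finset Filter

/-- the sums of powers with the exponents and the sets of the variables in the list -/
def PS : List (ℕ × Set ℕ) → Set ℕ
  | [] => {0}
  | p :: l => {n | ∃ x ∈ p.2, ∃ b ∈ PS l, n = x ^ p.1 + b}

open Classical in
/-- many elements of `U` between `Y` and `2 Y` -/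
def Dn (γ : ℝ) (U : Set ℕ) : Prop := ∃ Y₀ : ℕ, ∀ Y : ℕ, Y₀ ≤ Y → (Y : ℝ) ^ γ ≤ ((Ioc Y (2 * Y)).filter (· ∈ U)).card

/-- the number of the elements of `S` up to `X` -/
noncomputable def cnt (S : Set ℕ) (X : ℕ) : ℕ := by
  classical exact ((Finset.range (X + 1)).filter (· ∈ S)).card

/-- `S` has at least `c X ^ β` elements up to `X` -/
def Big (S : Set ℕ) (β : ℝ) : Prop := ∃ c : ℝ, 0 < c ∧ ∃ X₀ : ℕ, ∀ X : ℕ, X₀ ≤ X → c * (X : ℝ) ^ β ≤ cnt S X

lemma big_zero : Big (PS []) 0 := by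
  classical
  refine ⟨1, one_pos, 0, fun X _ => ?_⟩
  rw [Real.rpow_zero, mul_one]
  have : 1 ≤ cnt (PS []) X := by
    unfold cnt
    rw [Nat.one_le_iff_ne_zero, ← Nat.pos_iff_ne_zero, card_pos]
    exact ⟨0, by simp [PS]⟩
  exact_mod_cast this

lemma root (k : ℕ) (hk : 1 ≤ k) (X : ℕ) (hX : 2 * 4 ^ k ≤ X) : ∃ Y : ℕ, 2 ≤ Y ∧ 2 * (2 * Y) ^ k ≤ X ∧
    (X : ℝ) ^ (1 / (k : ℝ)) ≤ 8 * Y := by
  -- the largest `Y` with `2 (2 Y) ^ k ≤ X`
  obtain ⟨Y, hY⟩ : ∃ Y : ℕ, Y = Nat.findGreatest (fun Y => 2 * (2 * Y) ^ k ≤ X) X := ⟨_, rfl⟩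
  have h2 : 2 * (2 * 2) ^ k ≤ X := by norm_num; exact hX
  have hX2 : 2 ≤ X := by
    have : 1 ≤ 4 ^ k := Nat.one_le_pow _ _ (by norm_num)
    omega
  have h3 : 2 ≤ Y := by
    rw [hY]
    exact Nat.le_findGreatest hX2 h2
  have h4 : 2 * (2 * Y) ^ k ≤ X := by
    rw [hY]
    exact Nat.findGreatest_spec (P := fun Y => 2 * (2 * Y) ^ k ≤ X) hX2 h2
  refine ⟨Y, h3, h4, ?_⟩
  have h5 : X < 2 * (2 * (Y + 1)) ^ k := by
    by_contra hcon
    push Not at hcon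
    have h6 : Y + 1 ≤ X := by
      have : Y + 1 ≤ (2 * (Y + 1)) ^ k := by
        calc Y + 1 ≤ 2 * (Y + 1) := by omega
          _ ≤ (2 * (Y + 1)) ^ k := Nat.le_self_pow (by omega) _
      omega
    have := Nat.le_findGreatest (P := fun Y => 2 * (2 * Y) ^ k ≤ X) h6 hcon
    omega
  have h7 : (X : ℝ) ≤ (8 * (Y : ℝ)) ^ k := by
    have e1 : 2 * (2 * (Y + 1)) ^ k ≤ (8 * Y) ^ k := by
      calc 2 * (2 * (Y + 1)) ^ k ≤ 2 ^ k * (2 * (Y + 1)) ^ k := by
            apply Nat.mul_le_mul_right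
            exact Nat.le_self_pow (by omega) _
        _ = (2 * (2 * (Y + 1))) ^ k := (mul_pow 2 (2 * (Y + 1)) k).symm
        _ ≤ (8 * Y) ^ k := Nat.pow_le_pow_left (by omega) _
    have : X ≤ (8 * Y) ^ k := by omega
    exact_mod_cast this
  calc (X : ℝ) ^ (1 / (k : ℝ)) ≤ ((8 * (Y : ℝ)) ^ k) ^ (1 / (k : ℝ)) :=
        Real.rpow_le_rpow (Nat.cast_nonneg _) h7 (by positivity)
    _ = 8 * Y := by
        rw [← Real.rpow_natCast, ← Real.rpow_mul (by positivity)]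
        rw [mul_one_div_cancel (by exact_mod_cast (by omega : k ≠ 0)), Real.rpow_one]

lemma big_step (l : List (ℕ × Set ℕ)) (k : ℕ) (hk : 2 ≤ k) (U : Set ℕ) (α : ℝ) (hα : 0 ≤ α) (hU : Dn α U) (β : ℝ) (hβ : 0 ≤ β)
    (h : Big (PS l) β) : Big (PS ((k, U) :: l)) ((α + ((k : ℝ) - 1) * β) / k) := by
  classical
  obtain ⟨c, hc, X₀, hX⟩ := h
  obtain ⟨Y₁, hY₁⟩ := hU
  have hk0 : (0 : ℝ) < k := by exact_mod_cast (by omega : 0 < k)
  have hk1 : (0 : ℝ) ≤ (k : ℝ) - 1 := by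
    have : (1 : ℝ) ≤ k := by exact_mod_cast (by omega : 1 ≤ k)
    linarith
  obtain ⟨γ, hγ⟩ : ∃ γ : ℝ, γ = α + ((k : ℝ) - 1) * β := ⟨_, rfl⟩
  have hγ0 : 0 ≤ γ := by rw [hγ]; positivity
  refine ⟨c / 8 ^ γ, by positivity, 2 * (2 * (X₀ + Y₁ + 4)) ^ k * 8 ^ k, fun X hX1 => ?_⟩
  rw [← hγ]
  have hX2 : 2 * 4 ^ k ≤ X := by
    refine le_trans ?_ hX1
    calc 2 * 4 ^ k ≤ 2 * (2 * (X₀ + Y₁ + 4)) ^ k := by
          apply Nat.mul_le_mul_left
          exact Nat.pow_le_pow_left (by omega) _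
      _ ≤ _ := Nat.le_mul_of_pos_right _ (by positivity)
  obtain ⟨Y, hY2, hY3, hY4⟩ := root k (by omega) X hX2
  have hYbig : X₀ + Y₁ + 4 ≤ Y := by
    have e1 : (X : ℝ) ≤ (8 * (Y : ℝ)) ^ k := by
      have e2 := Real.rpow_le_rpow (z := k) (by positivity) hY4 (Nat.cast_nonneg k)
      rwa [← Real.rpow_mul (Nat.cast_nonneg _), one_div_mul_cancel hk0.ne', Real.rpow_one, Real.rpow_natCast] at e2
    have e3 : X ≤ (8 * Y) ^ k := by exact_mod_cast e1
    have e4 : (X₀ + Y₁ + 4) ^ k * 8 ^ k ≤ (8 * Y) ^ k := by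
      refine le_trans ?_ (hX1.trans e3)
      apply Nat.mul_le_mul_right
      calc (X₀ + Y₁ + 4) ^ k ≤ (2 * (X₀ + Y₁ + 4)) ^ k := Nat.pow_le_pow_left (by omega) _
        _ ≤ 2 * (2 * (X₀ + Y₁ + 4)) ^ k := by omega
    rw [← mul_pow] at e4
    have e5 : (X₀ + Y₁ + 4) * 8 ≤ 8 * Y := (Nat.pow_le_pow_iff_left (by omega)).1 e4
    omega
  have hYX : X₀ ≤ Y ^ (k - 1) := by
    calc X₀ ≤ Y := by omega
      _ ≤ Y ^ (k - 1) := Nat.le_self_pow (by omega) _
  -- the sums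
  obtain ⟨T, hT⟩ : ∃ T : Finset ℕ, T = (Finset.range (Y ^ (k - 1) + 1)).filter (· ∈ PS l) := ⟨_, rfl⟩
  have hTc : c * ((Y ^ (k - 1) : ℕ) : ℝ) ^ β ≤ T.card := by
    have := hX _ hYX
    unfold cnt at this
    rw [hT]
    exact this
  obtain ⟨V, hV⟩ : ∃ V : Finset ℕ, V = (Ioc Y (2 * Y)).filter (· ∈ U) := ⟨_, rfl⟩
  have hVc : (Y : ℝ) ^ α ≤ V.card := by
    have := hY₁ Y (by omega)
    rw [hV]
    exact this
  have hcard : V.card * T.card ≤ cnt (PS ((k, U) :: l)) X := by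
    rw [← card_product]
    unfold cnt
    apply card_le_card_of_injOn (fun p : ℕ × ℕ => p.1 ^ k + p.2)
    · rintro ⟨x, b⟩ hp
      rw [mem_coe, mem_product, hV, mem_filter, mem_Ioc, hT, mem_filter, mem_range] at hp
      simp only at hp
      obtain ⟨⟨⟨g1, g2⟩, g0⟩, g3, g4⟩ := hp
      rw [mem_coe, mem_filter, mem_range]
      refine ⟨?_, x, g0, b, g4, rfl⟩
      simp only
      have f1 : x ^ k ≤ (2 * Y) ^ k := Nat.pow_le_pow_left g2 _
      have f2 : Y ^ (k - 1) ≤ (2 * Y) ^ k := by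
        calc Y ^ (k - 1) ≤ (2 * Y) ^ (k - 1) := Nat.pow_le_pow_left (by omega) _
          _ ≤ (2 * Y) ^ k := Nat.pow_le_pow_right (by omega) (by omega)
      omega
    · -- the sums are distinct
      have key : ∀ x x' b b' : ℕ, Y < x → x < x' → b ≤ Y ^ (k - 1) → x ^ k + b ≠ x' ^ k + b' := by
        intro x x' b b' g1 g2 g3 heq
        have f1 : x ^ k + x ^ (k - 1) ≤ x' ^ k := by
          have f2 : (x + 1) ^ k ≤ x' ^ k := Nat.pow_le_pow_left g2 _
          have f3 : x ^ k + x ^ (k - 1) ≤ (x + 1) ^ k := by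
            have : (x + 1) ^ k = (x + 1) ^ (k - 1) * (x + 1) := by
              rw [← pow_succ]; congr 1; omega
            have f4 : x ^ k = x ^ (k - 1) * x := by
              rw [← pow_succ]; congr 1; omega
            have f5 : x ^ (k - 1) ≤ (x + 1) ^ (k - 1) := Nat.pow_le_pow_left (by omega) _
            rw [this, f4]
            calc x ^ (k - 1) * x + x ^ (k - 1) = x ^ (k - 1) * (x + 1) := by ring
              _ ≤ _ := Nat.mul_le_mul_right _ f5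
          omega
        have f6 : Y ^ (k - 1) < x ^ (k - 1) := Nat.pow_lt_pow_left g1 (by omega)
        omega
      rintro ⟨x, b⟩ hp ⟨x', b'⟩ hp' heq
      rw [mem_coe, mem_product, hV, mem_filter, mem_Ioc, hT, mem_filter, mem_range] at hp hp'
      simp only at hp hp' heq
      rcases lt_trichotomy x x' with hlt | heq' | hgt
      · exact absurd heq (key x x' b b' hp.1.1.1 hlt (by omega))
      · subst heq'
        have : b = b' := by omega
        rw [this]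
      · exact absurd heq.symm (key x' x b' b hp'.1.1.1 hgt (by omega))
  have hY0 : (0 : ℝ) < Y := by exact_mod_cast (by omega : 0 < Y)
  have e1 : (Y : ℝ) ^ α * (c * ((Y ^ (k - 1) : ℕ) : ℝ) ^ β) = c * (Y : ℝ) ^ γ := by
    have : ((Y ^ (k - 1) : ℕ) : ℝ) ^ β = (Y : ℝ) ^ (((k : ℝ) - 1) * β) := by
      rw [Nat.cast_pow, ← Real.rpow_natCast, ← Real.rpow_mul hY0.le, Nat.cast_sub (by omega), Nat.cast_one]
    rw [this, hγ, Real.rpow_add hY0]
    ring
  have e2 : c / 8 ^ γ * (X : ℝ) ^ (γ / k) ≤ c * (Y : ℝ) ^ γ := by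
    have e3 : (X : ℝ) ^ (γ / k) ≤ (8 * (Y : ℝ)) ^ γ := by
      calc (X : ℝ) ^ (γ / k) = ((X : ℝ) ^ (1 / (k : ℝ))) ^ γ := by
            rw [← Real.rpow_mul (Nat.cast_nonneg _)]
            congr 1
            ring
        _ ≤ _ := Real.rpow_le_rpow (by positivity) hY4 hγ0
    rw [Real.mul_rpow (by norm_num) hY0.le] at e3
    rw [div_mul_eq_mul_div, div_le_iff₀ (by positivity)]
    have := mul_le_mul_of_nonneg_left e3 hc.le
    linarith
  refine e2.trans ?_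
  rw [← e1]
  calc (Y : ℝ) ^ α * (c * ((Y ^ (k - 1) : ℕ) : ℝ) ^ β) ≤ V.card * T.card :=
        mul_le_mul hVc hTc (by positivity) (Nat.cast_nonneg _)
    _ ≤ _ := by exact_mod_cast hcard

/-- the product of the `1 - 1 / k` -/
noncomputable def dl (l : List (ℕ × Set ℕ)) : ℝ := (l.map (fun p : ℕ × Set ℕ => 1 - 1 / (p.1 : ℝ))).prod

/-- the sum of the `1 / k` -/
noncomputable def inv (l : List (ℕ × Set ℕ)) : ℝ := (l.map (fun p : ℕ × Set ℕ => 1 / (p.1 : ℝ))).sum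

lemma dl_mem (l : List (ℕ × Set ℕ)) (hl : ∀ p ∈ l, 2 ≤ p.1) : 0 ≤ dl l ∧ dl l ≤ 1 := by
  induction l with
  | nil => simp [dl]
  | cons p l ih =>
    obtain ⟨h1, h2⟩ := ih (fun j hj => hl j (List.mem_cons_of_mem _ hj))
    have hk : (2 : ℝ) ≤ p.1 := by exact_mod_cast hl p List.mem_cons_self
    have e : dl (p :: l) = (1 - 1 / (p.1 : ℝ)) * dl l := by simp [dl]
    have h3 : 0 ≤ 1 / (p.1 : ℝ) := by positivity
    have h4 : 1 / (p.1 : ℝ) ≤ 1 := by
      rw [div_le_one (by linarith)]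
      linarith
    rw [e]
    constructor
    · exact mul_nonneg (by linarith) h1
    · nlinarith

lemma dl_exp (l : List (ℕ × Set ℕ)) (hl : ∀ p ∈ l, 2 ≤ p.1) : dl l ≤ Real.exp (-inv l) := by
  induction l with
  | nil => simp [dl, inv]
  | cons p l ih =>
    have h1 := ih (fun j hj => hl j (List.mem_cons_of_mem _ hj))
    obtain ⟨h0, -⟩ := dl_mem l (fun j hj => hl j (List.mem_cons_of_mem _ hj))
    have e : dl (p :: l) = (1 - 1 / (p.1 : ℝ)) * dl l := by simp [dl]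
    have e2 : inv (p :: l) = 1 / (p.1 : ℝ) + inv l := by simp [inv]
    rw [e, e2, neg_add, Real.exp_add]
    have h2 : 1 - 1 / (p.1 : ℝ) ≤ Real.exp (-(1 / (p.1 : ℝ))) := by
      have := Real.add_one_le_exp (-(1 / (p.1 : ℝ)))
      linarith
    exact mul_le_mul h2 h1 h0 (Real.exp_pos _).le

theorem big_PS (η : ℝ) (hη : 0 ≤ η) (hη1 : η ≤ 1) (l : List (ℕ × Set ℕ)) (hl : ∀ p ∈ l, 2 ≤ p.1) (hU : ∀ p ∈ l, Dn (1 - η) p.2) :
    ∃ β : ℝ, 0 ≤ β ∧ 1 - β ≤ η + dl l ∧ Big (PS l) β := by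
  induction l with
  | nil => exact ⟨0, le_rfl, by simp [dl, hη], big_zero⟩
  | cons p l ih =>
    have hl' : ∀ j ∈ l, 2 ≤ j.1 := fun j hj => hl j (List.mem_cons_of_mem _ hj)
    obtain ⟨β, h1, h2, h3⟩ := ih hl' (fun j hj => hU j (List.mem_cons_of_mem _ hj))
    have hk : 2 ≤ p.1 := hl p List.mem_cons_self
    have hk2 : (2 : ℝ) ≤ p.1 := by exact_mod_cast hk
    have hk0 : (0 : ℝ) < p.1 := by linarith
    have h4 := big_step l p.1 hk p.2 (1 - η) (by linarith) (hU p List.mem_cons_self) β h1 h3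
    have e : dl (p :: l) = (1 - 1 / (p.1 : ℝ)) * dl l := by simp [dl]
    refine ⟨_, ?_, ?_, h4⟩
    · have : 0 ≤ ((p.1 : ℝ) - 1) * β := mul_nonneg (by linarith) h1
      apply div_nonneg (by linarith) hk0.le
    · rw [e]
      have e2 : 1 - (1 - η + ((p.1 : ℝ) - 1) * β) / p.1 = η / p.1 + (1 - 1 / (p.1 : ℝ)) * (1 - β) := by
        field_simp
        ring
      rw [e2]
      have h5 : 1 / (p.1 : ℝ) ≤ 1 := by
        rw [div_le_one hk0]
        linarith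
      have h6 := mul_le_mul_of_nonneg_left h2 (show 0 ≤ 1 - 1 / (p.1 : ℝ) by linarith)
      have e3 : η / (p.1 : ℝ) = η * (1 / (p.1 : ℝ)) := by ring
      rw [e3]
      nlinarith

/-- a list can be divided into two lists with given sums of the inverses -/
lemma split (l : List (ℕ × Set ℕ)) (hl : ∀ p ∈ l, 2 ≤ p.1) : ∀ t : ℝ, -1 ≤ t → t ≤ inv l →
    ∃ l₁ l₂ : List (ℕ × Set ℕ), l = l₁ ++ l₂ ∧ t ≤ inv l₁ ∧ inv l - t - 1 ≤ inv l₂ := by
  induction l with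
  | nil =>
    intro t ht h
    refine ⟨[], [], rfl, h, ?_⟩
    simp only [inv, List.map_nil, List.sum_nil] at h ⊢
    linarith
  | cons k l ih =>
    intro t ht h
    have e2 : inv (k :: l) = 1 / (k.1 : ℝ) + inv l := by simp [inv]
    rcases le_or_gt t 0 with h0 | h0
    · refine ⟨[], k :: l, rfl, ?_, by linarith⟩
      simp only [inv, List.map_nil, List.sum_nil]
      exact h0
    · have hk : (2 : ℝ) ≤ k.1 := by exact_mod_cast hl k List.mem_cons_self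
      have h4 : 1 / (k.1 : ℝ) ≤ 1 := by
        rw [div_le_one (by linarith)]
        linarith
      obtain ⟨l₁, l₂, g1, g2, g3⟩ := ih (fun j hj => hl j (List.mem_cons_of_mem _ hj)) (t - 1 / k.1) (by linarith)
        (by rw [e2] at h; linarith)
      refine ⟨k :: l₁, l₂, by rw [g1]; rfl, ?_, ?_⟩
      · have e3 : inv (k :: l₁) = 1 / (k.1 : ℝ) + inv l₁ := by simp [inv]
        rw [e3]
        linarith
      · rw [e2]
        linarith

lemma PS_append (l₁ l₂ : List (ℕ × Set ℕ)) (a b : ℕ) (ha : a ∈ PS l₁) (hb : b ∈ PS l₂) : a + b ∈ PS (l₁ ++ l₂) := by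
  induction l₁ generalizing a with
  | nil =>
    have : a = 0 := ha
    rw [this, zero_add]
    exact hb
  | cons p l ih =>
    obtain ⟨x, hx, c, hc, rfl⟩ := ha
    exact ⟨x, hx, c + b, ih c hc, by ring⟩

lemma PS_ofFn (s : ℕ) (k : Fin s → ℕ) (U : Fin s → Set ℕ) (n : ℕ) (h : n ∈ PS (List.ofFn (fun i => (k i, U i)))) :
    ∃ x : Fin s → ℕ, (∀ i, x i ∈ U i) ∧ n = ∑ i, x i ^ k i := by
  induction s generalizing n with
  | zero =>
    rw [List.ofFn_zero] at h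
    have : n = 0 := h
    exact ⟨fun i => i.elim0, fun i => i.elim0, by simp [this]⟩
  | succ s ih =>
    rw [List.ofFn_succ] at h
    obtain ⟨x, hx, b, hb, rfl⟩ := h
    obtain ⟨y, hy, rfl⟩ := ih (fun i => k i.succ) (fun i => U i.succ) b hb
    refine ⟨Fin.cons x y, ?_, ?_⟩
    · intro i
      refine Fin.cases ?_ (fun i => ?_) i
      · exact hx
      · exact hy i
    · rw [Fin.sum_univ_succ]
      simp

lemma inv_ofFn (s : ℕ) (k : Fin s → ℕ) (U : Fin s → Set ℕ) : inv (List.ofFn (fun i => (k i, U i))) = ∑ i, 1 / (k i : ℝ) := by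
  unfold inv
  rw [List.map_ofFn, List.sum_ofFn]
  rfl

end Pool.Agent.Zk66.Mix
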