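import Pool.Agent.Zk40.W.Window

/-!
The circle method without major arcs: sums of one number `⌊z ^ θ⌋` and of elements of two arbitrary sets. The exponential sums and the
comparison with a window are those of helper40 (`Pool/Agent/Zk40/W`).
-/

set_option autoImplicit false

namespace Pool.Agent.Zk66.War

open Finset MeasureTheory intervalIntegral Filter
open Pool.Agent.H469R2.NK (e norm_e e_add conj_e e_zero)
open Pool.Agent.Zk40.W

lemma parseval_id (A : Finset ℕ) : ∫ β in (-(1 / 2) : ℝ)..(1 / 2), ‖ES A id β‖ ^ 2 = (A.card : ℝ) := by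
  rw [parseval]
  have h : (A ×ˢ A).filter (fun p => id p.1 = id p.2) = A.image (fun a => (a, a)) := by
    ext ⟨a, b⟩
    simp only [mem_filter, mem_product, id, mem_image, Prod.mk.injEq]
    constructor
    · rintro ⟨⟨h1, h2⟩, rfl⟩
      exact ⟨a, h1, rfl, rfl⟩
    · rintro ⟨c, h1, rfl, rfl⟩
      exact ⟨⟨h1, h1⟩, rfl⟩
  rw [h, card_image_of_injective _ (fun a b h => (Prod.mk.inj h).1)]

/-- the product of two exponential sums over sets in the mean -/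
lemma mean_two (A B : Finset ℕ) (hA : A.Nonempty) (hB : B.Nonempty) :
    ∫ β in (-(1 / 2) : ℝ)..(1 / 2), ‖ES A id β‖ * ‖ES B id β‖ ≤ √(A.card : ℝ) * √(B.card : ℝ) := by
  have ha : (0 : ℝ) < A.card := by exact_mod_cast hA.card_pos
  have hb : (0 : ℝ) < B.card := by exact_mod_cast hB.card_pos
  have hsa : 0 < √(A.card : ℝ) := Real.sqrt_pos.2 ha
  have hsb : 0 < √(B.card : ℝ) := Real.sqrt_pos.2 hb
  set a := √(A.card : ℝ) with had
  set b := √(B.card : ℝ) with hbd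
  have ha2 : a ^ 2 = A.card := Real.sq_sqrt ha.le
  have hb2 : b ^ 2 = B.card := Real.sq_sqrt hb.le
  have i1 : IntervalIntegrable (fun β : ℝ => ‖ES A id β‖ * ‖ES B id β‖) volume (-(1 / 2)) (1 / 2) :=
    ((ES_cont A id).norm.mul (ES_cont B id).norm).intervalIntegrable _ _
  have i2 : IntervalIntegrable (fun β : ℝ => (b / (2 * a)) * ‖ES A id β‖ ^ 2) volume (-(1 / 2)) (1 / 2) :=
    (continuous_const.mul ((ES_cont A id).norm.pow 2)).intervalIntegrable _ _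
  have i3 : IntervalIntegrable (fun β : ℝ => (a / (2 * b)) * ‖ES B id β‖ ^ 2) volume (-(1 / 2)) (1 / 2) :=
    (continuous_const.mul ((ES_cont B id).norm.pow 2)).intervalIntegrable _ _
  have h1 : ∫ β in (-(1 / 2) : ℝ)..(1 / 2), ‖ES A id β‖ * ‖ES B id β‖ ≤
      ∫ β in (-(1 / 2) : ℝ)..(1 / 2), ((b / (2 * a)) * ‖ES A id β‖ ^ 2 + (a / (2 * b)) * ‖ES B id β‖ ^ 2) := by
    apply intervalIntegral.integral_mono_on (by norm_num) i1 (i2.add i3)
    intro β _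
    set x := ‖ES A id β‖
    set y := ‖ES B id β‖
    have h2 : 0 ≤ (b * x - a * y) ^ 2 / (2 * a * b) := by positivity
    have h3 : (b * x - a * y) ^ 2 / (2 * a * b) = (b / (2 * a)) * x ^ 2 + (a / (2 * b)) * y ^ 2 - x * y := by
      field_simp
      ring
    linarith
  refine h1.trans (le_of_eq ?_)
  rw [intervalIntegral.integral_add i2 i3, intervalIntegral.integral_const_mul, intervalIntegral.integral_const_mul,
    parseval_id, parseval_id, ← ha2, ← hb2]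
  field_simp
  ring

/-- comparison of the number of the representations with the average over a window -/
theorem circle1 (A B Z : Finset ℕ) (hA : A.Nonempty) (hB : B.Nonempty) (w : ℕ → ℕ) (S : ℝ) (W : ℕ) (hW : 1 ≤ W)
    (hS : ∀ β : ℝ, |β| ≤ 1 / 2 → ‖ES Z w β‖ * ‖1 - DW W β‖ ≤ S) (N : ℕ) :
    (1 / (W : ℝ)) * ∑ j ∈ range W, (((((A ×ˢ B) ×ˢ Z).filter
      (fun p => (((p.1.1 + p.1.2) + w p.2 : ℕ) : ℤ) = (N : ℤ) - j)).card : ℕ) : ℝ) ≤
    (((((A ×ˢ B) ×ˢ Z).filter (fun p => (p.1.1 + p.1.2) + w p.2 = N)).card : ℕ) : ℝ) +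
      S * (√(A.card : ℝ) * √(B.card : ℝ)) := by
  have hW0 : (0 : ℝ) < W := by exact_mod_cast hW
  have hWc : (W : ℂ) ≠ 0 := by exact_mod_cast hW0.ne'
  have hS0 : 0 ≤ S := le_trans (by positivity) (hS 0 (by norm_num))
  set T := (A ×ˢ B) ×ˢ Z with hT
  set v : (ℕ × ℕ) × ℕ → ℕ := fun p => (p.1.1 + p.1.2) + w p.2 with hv
  have hF : ∀ β, ES T v β = (ES A id β * ES B id β) * ES Z w β := by
    intro β
    rw [ES_mul, ES_mul]
    rfl
  set R : ℤ → ℝ := fun n => (((T.filter (fun p => (v p : ℤ) = n)).card : ℕ) : ℝ) with hR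
  have hRN : (((T.filter (fun p => v p = N)).card : ℕ) : ℝ) = R N := by
    rw [hR]
    simp only
    congr 2
    ext p
    simp only [mem_filter, Nat.cast_inj]
  have hint : ((R N - (1 / (W : ℝ)) * ∑ j ∈ range W, R ((N : ℤ) - j) : ℝ) : ℂ) =
      ∫ β in (-(1 / 2) : ℝ)..(1 / 2), ES T v β * e (-(β * N)) * (1 - DW W β) := by
    have h1 : ∀ β : ℝ, ES T v β * e (-(β * N)) * (1 - DW W β) =
        ES T v β * e (-(β * ((N : ℤ) : ℝ))) - (1 / (W : ℂ)) * ∑ j ∈ range W, ES T v β * e (-(β * (((N : ℤ) - j : ℤ) : ℝ))) := by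
      intro β
      unfold DW
      rw [mul_sub, mul_one]
      push_cast
      congr 1
      rw [mul_comm (ES T v β * e (-(β * N))), mul_assoc, sum_mul]
      congr 1
      apply sum_congr rfl
      intro j _
      have : e (-(β * (N - j))) = e (-(β * N)) * e (β * j) := by
        rw [← e_add]; congr 1; ring
      rw [this]
      ring
    simp_rw [h1]
    have hcont : ∀ n : ℤ, Continuous fun β : ℝ => ES T v β * e (-(β * (n : ℝ))) := by
      intro n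
      exact (ES_cont T v).mul (e_cont.comp (by fun_prop))
    have i1 : IntervalIntegrable (fun β : ℝ => ES T v β * e (-(β * ((N : ℤ) : ℝ)))) volume (-(1 / 2)) (1 / 2) :=
      (hcont N).intervalIntegrable _ _
    have i2 : IntervalIntegrable (fun β : ℝ => (1 / (W : ℂ)) * ∑ j ∈ range W, ES T v β * e (-(β * (((N : ℤ) - j : ℤ) : ℝ))))
        volume (-(1 / 2)) (1 / 2) :=
      (continuous_const.mul (continuous_finsetSum _ fun j _ => hcont _)).intervalIntegrable _ _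
    rw [intervalIntegral.integral_sub i1 i2, intervalIntegral.integral_const_mul,
      intervalIntegral.integral_finsetSum (fun j _ => (hcont _).intervalIntegrable _ _)]
    simp_rw [coeff]
    push_cast
    simp only [hR]
    push_cast
    rfl
  have hbound : ‖∫ β in (-(1 / 2) : ℝ)..(1 / 2), ES T v β * e (-(β * N)) * (1 - DW W β)‖ ≤
      ∫ β in (-(1 / 2) : ℝ)..(1 / 2), S * (‖ES A id β‖ * ‖ES B id β‖) := by
    apply intervalIntegral.norm_integral_le_of_norm_le (by norm_num)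
    · apply ae_of_all
      intro β hβ
      have hβ1 : |β| ≤ 1 / 2 := by
        rw [abs_le]
        exact ⟨hβ.1.le, hβ.2⟩
      rw [norm_mul, norm_mul, norm_e, mul_one, hF, norm_mul, norm_mul]
      have h2 := mul_le_mul_of_nonneg_left (hS β hβ1) (show 0 ≤ ‖ES A id β‖ * ‖ES B id β‖ by positivity)
      linarith
    · exact (continuous_const.mul ((ES_cont A id).norm.mul (ES_cont B id).norm)).intervalIntegrable _ _
  have hval : ∫ β in (-(1 / 2) : ℝ)..(1 / 2), S * (‖ES A id β‖ * ‖ES B id β‖) ≤ S * (√(A.card : ℝ) * √(B.card : ℝ)) := by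
    rw [intervalIntegral.integral_const_mul]
    exact mul_le_mul_of_nonneg_left (mean_two A B hA hB) hS0
  have hfin : ‖((R N - (1 / (W : ℝ)) * ∑ j ∈ range W, R ((N : ℤ) - j) : ℝ) : ℂ)‖ ≤ S * (√(A.card : ℝ) * √(B.card : ℝ)) := by
    rw [hint]
    exact hbound.trans hval
  rw [Complex.norm_real, Real.norm_eq_abs, abs_le] at hfin
  rw [hRN]
  have := hfin.1
  linarith

/-- the average over a window -/
theorem window1 (A B Z : Finset ℕ) (w : ℕ → ℕ) (W N : ℕ) (m : ℝ)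
    (hmany : ∀ a ∈ A, ∀ b ∈ B, m ≤ (((Z.filter (fun z => ((N : ℤ) - a - b) - W < (w z : ℤ) ∧
      (w z : ℤ) ≤ (N : ℤ) - a - b)).card : ℕ) : ℝ)) :
    (A.card : ℝ) * B.card * m ≤ ∑ j ∈ range W, (((((A ×ˢ B) ×ˢ Z).filter
      (fun p => (((p.1.1 + p.1.2) + w p.2 : ℕ) : ℤ) = (N : ℤ) - j)).card : ℕ) : ℝ) := by
  have h1 : ∀ p : (ℕ × ℕ) × ℕ,
      (if ((N : ℤ) - p.1.1 - p.1.2) - W < (w p.2 : ℤ) ∧ (w p.2 : ℤ) ≤ (N : ℤ) - p.1.1 - p.1.2
        then (1 : ℝ) else 0) ≤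
      ∑ j ∈ range W, (if (((p.1.1 + p.1.2) + w p.2 : ℕ) : ℤ) = (N : ℤ) - j then (1 : ℝ) else 0) := by
    intro p
    split_ifs with h
    · obtain ⟨j, hj⟩ : ∃ j : ℕ, (j : ℤ) = (N : ℤ) - p.1.1 - p.1.2 - w p.2 := by
        refine ⟨((N : ℤ) - p.1.1 - p.1.2 - w p.2).toNat, ?_⟩
        rw [Int.toNat_of_nonneg]
        omega
      have hjW : j ∈ range W := by
        rw [mem_range]
        omega
      have h2 : (1 : ℝ) = (if (((p.1.1 + p.1.2) + w p.2 : ℕ) : ℤ) = (N : ℤ) - j then (1 : ℝ) else 0) := by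
        rw [if_pos]
        push_cast
        omega
      refine h2.le.trans ?_
      exact single_le_sum (f := fun j : ℕ => (if (((p.1.1 + p.1.2) + w p.2 : ℕ) : ℤ) = (N : ℤ) - j then (1 : ℝ) else 0))
        (fun i _ => by split_ifs <;> norm_num) hjW
    · exact sum_nonneg fun i _ => by split_ifs <;> norm_num
  have h2 : ∑ j ∈ range W, (((((A ×ˢ B) ×ˢ Z).filter
      (fun p => (((p.1.1 + p.1.2) + w p.2 : ℕ) : ℤ) = (N : ℤ) - j)).card : ℕ) : ℝ) =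
      ∑ p ∈ (A ×ˢ B) ×ˢ Z, ∑ j ∈ range W,
        (if (((p.1.1 + p.1.2) + w p.2 : ℕ) : ℤ) = (N : ℤ) - j then (1 : ℝ) else 0) := by
    rw [sum_comm]
    apply sum_congr rfl
    intro j _
    rw [card_filter]
    push_cast
    rfl
  rw [h2]
  refine le_trans ?_ (sum_le_sum fun p _ => h1 p)
  rw [sum_product]
  have h3 : ∀ q ∈ A ×ˢ B, m ≤ ∑ z ∈ Z,
      (if ((N : ℤ) - q.1 - q.2) - W < (w z : ℤ) ∧ (w z : ℤ) ≤ (N : ℤ) - q.1 - q.2
        then (1 : ℝ) else 0) := by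
    intro q hq
    rw [mem_product] at hq
    refine (hmany q.1 hq.1 q.2 hq.2).trans (le_of_eq ?_)
    rw [card_filter]
    push_cast
    rfl
  calc (A.card : ℝ) * B.card * m = ∑ _q ∈ A ×ˢ B, m := by
        rw [sum_const, nsmul_eq_mul, card_product]
        push_cast
        ring
    _ ≤ _ := sum_le_sum h3

/-- **One number `⌊z ^ θ⌋` and elements of two sets.** -/
theorem scale (θ : ℝ) (h1 : 1 < θ) (hn : ∀ m : ℕ, θ ≠ m) : ∃ ρ : ℝ, 0 < ρ ∧ ∀ᶠ M : ℕ in atTop, ∀ N : ℕ,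
    (2 * (M : ℝ)) ^ θ ≤ N → (N : ℝ) < (4 * (M : ℝ)) ^ θ → ∀ A B : Finset ℕ, (∀ a ∈ A, (a : ℝ) ≤ (M : ℝ) ^ θ / 4) →
      (∀ b ∈ B, (b : ℝ) ≤ (M : ℝ) ^ θ / 4) → (M : ℝ) ^ (2 * θ - ρ) ≤ A.card * B.card →
      ∃ a ∈ A, ∃ b ∈ B, ∃ z : ℕ, a + b + wt θ z = N := by
  have hθ0 : 0 < θ := by linarith
  obtain ⟨C, σ, hC, hσ, hσ1, hexp⟩ := exp_both θ h1 hn 1 le_rfl
  obtain ⟨D₀, hD₀⟩ : ∃ D₀ : ℝ, D₀ = θ * (5 : ℝ) ^ (θ - 1) := ⟨_, rfl⟩
  have hD₀1 : 1 ≤ D₀ := by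
    have : 1 ≤ (5 : ℝ) ^ (θ - 1) := Real.one_le_rpow (by norm_num) (by linarith)
    rw [hD₀]
    nlinarith
  have hD₀0 : 0 < D₀ := by linarith
  -- the bound for the error
  obtain ⟨C₂, hC₂⟩ : ∃ C₂ : ℝ, C₂ = 21 * C * D₀ + 2 * C := ⟨_, rfl⟩
  have hC₂0 : 0 < C₂ := by rw [hC₂]; positivity
  refine ⟨σ, hσ, ?_⟩
  have hcast : Tendsto (fun M : ℕ => (M : ℝ)) atTop atTop := tendsto_natCast_atTop_atTop
  have v1 : ∀ᶠ M : ℕ in atTop, (2 * D₀ * C₂) ^ 2 + 1 ≤ (M : ℝ) ^ σ :=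
    ((tendsto_rpow_atTop hσ).comp hcast).eventually_ge_atTop _
  have v2 : ∀ᶠ M : ℕ in atTop, 6 * D₀ + 3 ≤ (M : ℝ) := hcast.eventually_ge_atTop _
  filter_upwards [hexp, v1, v2] with M k1 k2 k3 N hN1 hN2 A B hA hB hAB
  rw [one_mul] at k1
  have hM1 : (1 : ℝ) ≤ M := by linarith
  have hM0 : (0 : ℝ) < M := by linarith
  have hMn : 1 ≤ M := by exact_mod_cast hM1
  obtain ⟨D, hD⟩ : ∃ D : ℝ, D = θ * (5 * (M : ℝ)) ^ (θ - 1) := ⟨_, rfl⟩
  have hDD : D = D₀ * (M : ℝ) ^ (θ - 1) := by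
    rw [hD, hD₀, Real.mul_rpow (by norm_num) hM0.le]
    ring
  have hMθ1 : 1 ≤ (M : ℝ) ^ (θ - 1) := Real.one_le_rpow hM1 (by linarith)
  have hD1 : 1 ≤ D := by rw [hDD]; nlinarith
  have hD0 : 0 < D := by linarith
  have hMM : (M : ℝ) ^ θ = M * (M : ℝ) ^ (θ - 1) := by
    rw [← Real.rpow_one_add' hM0.le (by linarith)]; congr 1; ring
  obtain ⟨W, hW⟩ : ∃ W : ℕ, W = ⌈2 * D⌉₊ := ⟨_, rfl⟩
  have hW1 : 2 * D ≤ W := by rw [hW]; exact Nat.le_ceil _
  have hW2 : (W : ℝ) ≤ 3 * D := by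
    have : (W : ℝ) < 2 * D + 1 := by rw [hW]; exact Nat.ceil_lt_add_one (by positivity)
    linarith
  have hWn : 1 ≤ W := by
    have : (1 : ℝ) ≤ W := by linarith
    exact_mod_cast this
  have hW0 : (0 : ℝ) < W := by linarith
  have hWM : (W : ℝ) ≤ M * D := hW2.trans (mul_le_mul_of_nonneg_right (by nlinarith) hD0.le)
  have hWθ : (W : ℝ) ≤ (M : ℝ) ^ θ / 2 := by
    rw [hMM]
    have e1 : 3 * D ≤ (M : ℝ) * (M : ℝ) ^ (θ - 1) / 2 := by
      rw [hDD]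
      have := mul_le_mul_of_nonneg_right (show 6 * D₀ ≤ (M : ℝ) by linarith) (show 0 ≤ (M : ℝ) ^ (θ - 1) by positivity)
      linarith
    linarith
  -- the windows
  have h2M : 2 * (M : ℝ) ^ θ ≤ (2 * (M : ℝ)) ^ θ := by
    rw [Real.mul_rpow (by norm_num) (Nat.cast_nonneg _)]
    apply mul_le_mul_of_nonneg_right _ (by positivity)
    calc (2 : ℝ) = 2 ^ (1 : ℝ) := (Real.rpow_one _).symm
      _ ≤ _ := Real.rpow_le_rpow_of_exponent_le (by norm_num) h1.le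
  have hmany : ∀ a ∈ A, ∀ b ∈ B, (W : ℝ) / (2 * D) ≤ ((((Ioc M (4 * M)).filter (fun z => ((N : ℤ) - a - b) - W < (wt θ z : ℤ) ∧
      (wt θ z : ℤ) ≤ (N : ℤ) - a - b)).card : ℕ) : ℝ) := by
    intro a ha b hb
    have e1 := hA a ha
    have e2 := hB b hb
    have a1 : (0 : ℝ) ≤ a := Nat.cast_nonneg _
    have a2 : (0 : ℝ) ≤ b := Nat.cast_nonneg _
    apply many_z θ h1 M W hMn hWn _ D hD _ _ hW1 hWM
    · push_cast
      linarith
    · push_cast
      linarith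
  have hwin := window1 A B (Ioc M (4 * M)) (wt θ) W N _ hmany
  have hprod : 0 < (A.card : ℝ) * B.card := lt_of_lt_of_le (by positivity) hAB
  have hA0 : A.Nonempty := by
    rw [nonempty_iff_ne_empty]
    rintro rfl
    simp at hprod
  have hB0 : B.Nonempty := by
    rw [nonempty_iff_ne_empty]
    rintro rfl
    simp at hprod
  -- the error
  have hS : ∀ β : ℝ, |β| ≤ 1 / 2 → ‖ES (Ioc M (4 * M)) (wt θ) β‖ * ‖1 - DW W β‖ ≤ C₂ * (M : ℝ) ^ (1 - σ) := by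
    intro β hβ
    obtain ⟨d1, d2⟩ := DW_bound W hWn β
    have z1 := (k1 β hβ).1
    have hden : 0 < 1 + (M : ℝ) ^ θ * |β| := by positivity
    have hMσ : 1 ≤ (M : ℝ) ^ (1 - σ) := Real.one_le_rpow hM1 (by linarith)
    have hn0 := norm_nonneg (1 - DW W β)
    have t1 : C * M / (1 + (M : ℝ) ^ θ * |β|) * ‖1 - DW W β‖ ≤ 21 * C * D₀ := by
      have s1 : C * M / (1 + (M : ℝ) ^ θ * |β|) * ‖1 - DW W β‖ ≤ C * M / (1 + (M : ℝ) ^ θ * |β|) * (7 * (3 * D) * |β|) := by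
        apply mul_le_mul_of_nonneg_left _ (by positivity)
        refine d2.trans ?_
        gcongr
      refine s1.trans ?_
      rw [div_mul_eq_mul_div, div_le_iff₀ hden, hDD]
      have s2 : C * M * (7 * (3 * (D₀ * (M : ℝ) ^ (θ - 1))) * |β|) = 21 * C * D₀ * ((M : ℝ) ^ θ * |β|) := by
        rw [hMM]
        ring
      rw [s2]
      have s3 : 0 ≤ 21 * C * D₀ := by positivity
      nlinarith
    calc ‖ES (Ioc M (4 * M)) (wt θ) β‖ * ‖1 - DW W β‖ ≤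
        (C * M / (1 + (M : ℝ) ^ θ * |β|) + C * (M : ℝ) ^ (1 - σ)) * ‖1 - DW W β‖ := mul_le_mul_of_nonneg_right z1 hn0
      _ = C * M / (1 + (M : ℝ) ^ θ * |β|) * ‖1 - DW W β‖ + C * (M : ℝ) ^ (1 - σ) * ‖1 - DW W β‖ := by ring
      _ ≤ 21 * C * D₀ + C * (M : ℝ) ^ (1 - σ) * 2 := by gcongr
      _ ≤ 21 * C * D₀ * (M : ℝ) ^ (1 - σ) + C * (M : ℝ) ^ (1 - σ) * 2 := by
        have : 21 * C * D₀ ≤ 21 * C * D₀ * (M : ℝ) ^ (1 - σ) := le_mul_of_one_le_right (by positivity) hMσ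
        linarith
      _ = C₂ * (M : ℝ) ^ (1 - σ) := by rw [hC₂]; ring
  have hcir := circle1 A B (Ioc M (4 * M)) hA0 hB0 (wt θ) _ W hWn hS N
  set R : ℝ := (((((A ×ˢ B) ×ˢ (Ioc M (4 * M))).filter (fun p => (p.1.1 + p.1.2) + wt θ p.2 = N)).card : ℕ) : ℝ) with hR
  obtain ⟨G, hG⟩ : ∃ G : ℝ, G = √(A.card : ℝ) * √(B.card : ℝ) := ⟨_, rfl⟩
  have hG2 : G ^ 2 = (A.card : ℝ) * B.card := by
    rw [hG, mul_pow, Real.sq_sqrt (Nat.cast_nonneg _), Real.sq_sqrt (Nat.cast_nonneg _)]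
  have hG0 : 0 < G := by
    rw [hG]
    have ha : (0 : ℝ) < A.card := by exact_mod_cast hA0.card_pos
    have hb : (0 : ℝ) < B.card := by exact_mod_cast hB0.card_pos
    positivity
  rw [← hG] at hcir
  rw [← hG2] at hwin hAB
  -- the main term
  have hmain : G ^ 2 / (2 * D) ≤ R + C₂ * (M : ℝ) ^ (1 - σ) * G := by
    refine le_trans ?_ hcir
    have e1 : G ^ 2 / (2 * D) = (1 / (W : ℝ)) * (G ^ 2 * ((W : ℝ) / (2 * D))) := by
      field_simp
    rw [e1]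
    exact mul_le_mul_of_nonneg_left hwin (by positivity)
  have hbig : 2 * D * (C₂ * (M : ℝ) ^ (1 - σ)) < G := by
    have e1 : 2 * D * (C₂ * (M : ℝ) ^ (1 - σ)) = 2 * D₀ * C₂ * (M : ℝ) ^ (θ - σ) := by
      rw [hDD]
      have : (M : ℝ) ^ (θ - 1) * (M : ℝ) ^ (1 - σ) = (M : ℝ) ^ (θ - σ) := by
        rw [← Real.rpow_add hM0]; congr 1; ring
      rw [← this]
      ring
    rw [e1]
    apply lt_of_pow_lt_pow_left₀ 2 hG0.le
    refine lt_of_lt_of_le ?_ hAB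
    have e2 : (2 * D₀ * C₂ * (M : ℝ) ^ (θ - σ)) ^ 2 = (2 * D₀ * C₂) ^ 2 * (M : ℝ) ^ (2 * θ - 2 * σ) := by
      rw [mul_pow, ← Real.rpow_natCast ((M : ℝ) ^ (θ - σ)), ← Real.rpow_mul hM0.le]
      congr 2
      push_cast
      ring
    have e3 : (M : ℝ) ^ (2 * θ - σ) = (M : ℝ) ^ σ * (M : ℝ) ^ (2 * θ - 2 * σ) := by
      rw [← Real.rpow_add hM0]; congr 1; ring
    rw [e2, e3]
    apply mul_lt_mul_of_pos_right _ (by positivity)
    linarith
  have hRpos : 0 < R := by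
    have e1 : C₂ * (M : ℝ) ^ (1 - σ) * G < G ^ 2 / (2 * D) := by
      rw [lt_div_iff₀ (by positivity)]
      have e2 := mul_lt_mul_of_pos_right hbig hG0
      have e3 : C₂ * (M : ℝ) ^ (1 - σ) * G * (2 * D) = 2 * D * (C₂ * (M : ℝ) ^ (1 - σ)) * G := by ring
      have e4 : G ^ 2 = G * G := sq G
      rw [e3, e4]
      exact e2
    linarith
  have hne : (((A ×ˢ B) ×ˢ (Ioc M (4 * M))).filter (fun p => (p.1.1 + p.1.2) + wt θ p.2 = N)).Nonempty := by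
    rw [← card_pos]
    rw [hR] at hRpos
    exact_mod_cast hRpos
  obtain ⟨p, hp⟩ := hne
  rw [mem_filter, mem_product, mem_product] at hp
  exact ⟨p.1.1, hp.1.1.1, p.1.2, hp.1.1.2, p.2, hp.2⟩

end Pool.Agent.Zk66.War
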