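import Pool.Agent.Zk66.War
import Pool.Agent.Zk66.Mix

/-! Every large integer is a sum of one number `⌊m ^ θ⌋` and of powers with given exponents. -/

set_option autoImplicit false

namespace Pool.Agent.Zk66.WarMain

open Finset Filter
open Pool.Agent.Zk40.W (wt wt_floor)
open Pool.Agent.Zk66.Mix

/-- two sets with power savings close to one -/
theorem two_sets (θ : ℝ) (h1 : 1 < θ) (hn : ∀ m : ℕ, θ ≠ m) : ∃ τ : ℝ, 0 < τ ∧ ∀ (S T : Set ℕ) (β γ : ℝ), Big S β → Big T γ →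
    2 - τ ≤ β + γ → ∀ᶠ N : ℕ in atTop, ∃ a ∈ S, ∃ b ∈ T, ∃ z : ℕ, a + b + wt θ z = N := by
  classical
  obtain ⟨ρ, hρ, hev⟩ := Pool.Agent.Zk66.War.scale θ h1 hn
  have hθ0 : 0 < θ := by linarith
  refine ⟨ρ / (2 * θ), by positivity, fun S T β γ hS hT hβγ => ?_⟩
  obtain ⟨c, hc, X₀, hX⟩ := hS
  obtain ⟨c', hc', X₀', hX'⟩ := hT
  have hcast : Tendsto (fun M : ℕ => (M : ℝ)) atTop atTop := tendsto_natCast_atTop_atTop
  -- for large `M` all `N` in the range are represented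
  have hM : ∀ᶠ M : ℕ in atTop, ∀ N : ℕ, (2 * (M : ℝ)) ^ θ ≤ N → (N : ℝ) < (4 * (M : ℝ)) ^ θ →
      ∃ a ∈ S, ∃ b ∈ T, ∃ z : ℕ, a + b + wt θ z = N := by
    have v1 : ∀ᶠ M : ℕ in atTop, (X₀ : ℝ) + X₀' + 8 ≤ (M : ℝ) ^ θ / 8 := by
      have h2 : Tendsto (fun M : ℕ => (M : ℝ) ^ θ / 8) atTop atTop :=
        ((tendsto_rpow_atTop hθ0).comp hcast).atTop_div_const (by norm_num)
      exact h2.eventually_ge_atTop _
    have v2 : ∀ᶠ M : ℕ in atTop, 8 ^ (|β| + |γ|) / (c * c') ≤ (M : ℝ) ^ (ρ / 2) :=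
      ((tendsto_rpow_atTop (by positivity)).comp hcast).eventually_ge_atTop _
    filter_upwards [hev, v1, v2, eventually_ge_atTop 1] with M k1 k2 k3 k4 N hN1 hN2
    have hM1 : (1 : ℝ) ≤ M := by exact_mod_cast k4
    have hM0 : (0 : ℝ) < M := by linarith
    obtain ⟨X, hXd⟩ : ∃ X : ℕ, X = ⌊(M : ℝ) ^ θ / 4⌋₊ := ⟨_, rfl⟩
    have hX1 : (X : ℝ) ≤ (M : ℝ) ^ θ / 4 := by rw [hXd]; exact Nat.floor_le (by positivity)
    have hX2 : (M : ℝ) ^ θ / 8 ≤ X := by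
      have : (M : ℝ) ^ θ / 4 < X + 1 := by rw [hXd]; exact Nat.lt_floor_add_one _
      have h0 : (0 : ℝ) ≤ X₀ := Nat.cast_nonneg _
      have h0' : (0 : ℝ) ≤ X₀' := Nat.cast_nonneg _
      linarith
    have hXX : X₀ + X₀' ≤ X := by
      have : ((X₀ + X₀' : ℕ) : ℝ) ≤ X := by push_cast; linarith
      exact_mod_cast this
    obtain ⟨A, hA⟩ : ∃ A : Finset ℕ, A = (Finset.range (X + 1)).filter (· ∈ S) := ⟨_, rfl⟩
    obtain ⟨B, hB⟩ : ∃ B : Finset ℕ, B = (Finset.range (X + 1)).filter (· ∈ T) := ⟨_, rfl⟩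
    have hAc : c * (X : ℝ) ^ β ≤ A.card := by
      have := hX X (by omega)
      unfold cnt at this
      rw [hA]
      convert this
    have hBc : c' * (X : ℝ) ^ γ ≤ B.card := by
      have := hX' X (by omega)
      unfold cnt at this
      rw [hB]
      convert this
    have hX0 : (0 : ℝ) < X := lt_of_lt_of_le (by positivity) hX2
    -- the product
    have hprod : (M : ℝ) ^ (2 * θ - ρ) ≤ (A.card : ℝ) * B.card := by
      refine le_trans ?_ (mul_le_mul hAc hBc (by positivity) (Nat.cast_nonneg _))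
      have e1 : c * (X : ℝ) ^ β * (c' * (X : ℝ) ^ γ) = c * c' * (X : ℝ) ^ (β + γ) := by
        rw [Real.rpow_add hX0]
        ring
      rw [e1]
      have hlow : ∀ s : ℝ, 8 ^ (-|s|) * (M : ℝ) ^ (θ * s) ≤ (X : ℝ) ^ s := by
        intro s
        have hMs : (M : ℝ) ^ (θ * s) = ((M : ℝ) ^ θ) ^ s := by rw [Real.rpow_mul hM0.le]
        have hMθ : 0 < (M : ℝ) ^ θ := by positivity
        rcases le_total 0 s with hs | hs
        · rw [abs_of_nonneg hs, hMs]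
          calc (8 : ℝ) ^ (-s) * ((M : ℝ) ^ θ) ^ s = ((M : ℝ) ^ θ / 8) ^ s := by
                rw [Real.div_rpow hMθ.le (by norm_num), Real.rpow_neg (by norm_num)]
                ring
            _ ≤ _ := Real.rpow_le_rpow (by positivity) hX2 hs
        · rw [abs_of_nonpos hs, neg_neg, hMs]
          have g1 : ((M : ℝ) ^ θ) ^ s ≤ (X : ℝ) ^ s := Real.rpow_le_rpow_of_nonpos hX0 (by linarith) hs
          have g2 : (8 : ℝ) ^ s ≤ 1 := Real.rpow_le_one_of_one_le_of_nonpos (by norm_num) hs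
          have g3 : 0 < ((M : ℝ) ^ θ) ^ s := by positivity
          nlinarith
      have h2 := hlow (β + γ)
      have h3 : (8 : ℝ) ^ (-(|β| + |γ|)) ≤ 8 ^ (-|β + γ|) := by
        apply Real.rpow_le_rpow_of_exponent_le (by norm_num)
        linarith [abs_add_le β γ]
      have h4 : (M : ℝ) ^ (2 * θ - ρ / 2) ≤ (M : ℝ) ^ (θ * (β + γ)) := by
        apply Real.rpow_le_rpow_of_exponent_le hM1
        have := mul_le_mul_of_nonneg_left hβγ hθ0.le
        have e : θ * (2 - ρ / (2 * θ)) = 2 * θ - ρ / 2 := by field_simp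
        linarith
      have h5 : (M : ℝ) ^ (2 * θ - ρ / 2) = (M : ℝ) ^ (ρ / 2) * (M : ℝ) ^ (2 * θ - ρ) := by
        rw [← Real.rpow_add hM0]; congr 1; ring
      have h6 : 1 ≤ c * c' * 8 ^ (-(|β| + |γ|)) * (M : ℝ) ^ (ρ / 2) := by
        rw [Real.rpow_neg (by norm_num)]
        rw [div_le_iff₀ (by positivity)] at k3
        have h8 : (0 : ℝ) < 8 ^ (|β| + |γ|) := by positivity
        have : c * c' * (8 ^ (|β| + |γ|))⁻¹ * (M : ℝ) ^ (ρ / 2) = (M : ℝ) ^ (ρ / 2) * (c * c') / 8 ^ (|β| + |γ|) := by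
          field_simp
        rw [this, le_div_iff₀ h8, one_mul]
        exact k3
      calc (M : ℝ) ^ (2 * θ - ρ) ≤ (c * c' * 8 ^ (-(|β| + |γ|)) * (M : ℝ) ^ (ρ / 2)) * (M : ℝ) ^ (2 * θ - ρ) :=
            le_mul_of_one_le_left (by positivity) h6
        _ = c * c' * 8 ^ (-(|β| + |γ|)) * (M : ℝ) ^ (2 * θ - ρ / 2) := by rw [h5]; ring
        _ ≤ c * c' * 8 ^ (-|β + γ|) * (M : ℝ) ^ (θ * (β + γ)) := by gcongr
        _ = c * c' * (8 ^ (-|β + γ|) * (M : ℝ) ^ (θ * (β + γ))) := by ring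
        _ ≤ _ := mul_le_mul_of_nonneg_left h2 (by positivity)
    obtain ⟨a, ha, b, hb, z, hz⟩ := k1 N hN1 hN2 A B
      (by
        intro a ha
        rw [hA, mem_filter, mem_range] at ha
        have : (a : ℝ) ≤ X := by exact_mod_cast (by omega : a ≤ X)
        linarith)
      (by
        intro b hb
        rw [hB, mem_filter, mem_range] at hb
        have : (b : ℝ) ≤ X := by exact_mod_cast (by omega : b ≤ X)
        linarith) hprod
    rw [hA, mem_filter] at ha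
    rw [hB, mem_filter] at hb
    exact ⟨a, ha.2, b, hb.2, z, hz⟩
  -- the scale
  obtain ⟨M₀, hM₀⟩ := eventually_atTop.1 hM
  have v3 : ∀ᶠ N : ℕ in atTop, 2 * ((M₀ : ℝ) + 2) ≤ (N : ℝ) ^ (1 / θ) :=
    ((tendsto_rpow_atTop (by positivity)).comp hcast).eventually_ge_atTop _
  filter_upwards [v3, eventually_ge_atTop 1] with N hN hN1
  have hN0 : (0 : ℝ) < N := by exact_mod_cast hN1
  obtain ⟨M, hMd⟩ : ∃ M : ℕ, M = ⌊(N : ℝ) ^ (1 / θ) / 2⌋₊ := ⟨_, rfl⟩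
  have g1 : (M : ℝ) ≤ (N : ℝ) ^ (1 / θ) / 2 := by rw [hMd]; exact Nat.floor_le (by positivity)
  have g2 : (N : ℝ) ^ (1 / θ) / 2 < M + 1 := by rw [hMd]; exact Nat.lt_floor_add_one _
  have g3 : (M₀ : ℝ) + 1 < M := by linarith
  have hM₀0 : (0 : ℝ) ≤ M₀ := Nat.cast_nonneg _
  have g4 : M₀ ≤ M := by
    have : (M₀ : ℝ) ≤ M := by linarith
    exact_mod_cast this
  have hNN : ((N : ℝ) ^ (1 / θ)) ^ θ = N := by
    rw [← Real.rpow_mul hN0.le, one_div_mul_cancel hθ0.ne', Real.rpow_one]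
  apply hM₀ M g4 N
  · rw [← hNN]
    exact Real.rpow_le_rpow (by positivity) (by linarith) hθ0.le
  · calc (N : ℝ) = ((N : ℝ) ^ (1 / θ)) ^ θ := hNN.symm
      _ < (4 * (M : ℝ)) ^ θ := Real.rpow_lt_rpow (by positivity) (by linarith) hθ0

/-- one number `⌊z ^ θ⌋` and powers with given exponents of elements of given sets -/
theorem mixed (θ : ℝ) (h1 : 1 < θ) (hn : ∀ m : ℕ, θ ≠ m) : ∃ C η : ℝ, 0 < C ∧ 0 < η ∧ ∀ (s : ℕ) (k : Fin s → ℕ) (U : Fin s → Set ℕ),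
    (∀ i, 2 ≤ k i) → (∀ i, Dn (1 - η) (U i)) → C ≤ ∑ i, 1 / (k i : ℝ) →
    ∀ᶠ N : ℕ in atTop, ∃ (z : ℕ) (x : Fin s → ℕ), (∀ i, x i ∈ U i) ∧ N = wt θ z + ∑ i, x i ^ k i := by
  obtain ⟨τ, hτ, h⟩ := two_sets θ h1 hn
  obtain ⟨T, hT0, hT⟩ : ∃ T : ℝ, 0 ≤ T ∧ Real.exp (-T) ≤ τ / 4 := by
    refine ⟨max 0 (-Real.log (τ / 4)), le_max_left _ _, ?_⟩
    calc Real.exp (-max 0 (-Real.log (τ / 4))) ≤ Real.exp (Real.log (τ / 4)) := by
          apply Real.exp_le_exp.2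
          linarith [le_max_right 0 (-Real.log (τ / 4))]
      _ = τ / 4 := Real.exp_log (by positivity)
  obtain ⟨η, hηd⟩ : ∃ η : ℝ, η = min 1 (τ / 4) := ⟨_, rfl⟩
  have hη0 : 0 < η := by rw [hηd]; exact lt_min one_pos (by positivity)
  have hη1 : η ≤ 1 := by rw [hηd]; exact min_le_left _ _
  have hητ : η ≤ τ / 4 := by rw [hηd]; exact min_le_right _ _
  refine ⟨2 * T + 1, η, by linarith, hη0, fun s k U hk hU hC => ?_⟩
  obtain ⟨l, hld⟩ : ∃ l : List (ℕ × Set ℕ), l = List.ofFn (fun i => (k i, U i)) := ⟨_, rfl⟩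
  have hl : ∀ j ∈ l, 2 ≤ j.1 := by
    intro j hj
    rw [hld, List.mem_ofFn] at hj
    obtain ⟨i, rfl⟩ := hj
    exact hk i
  have hlU : ∀ j ∈ l, Dn (1 - η) j.2 := by
    intro j hj
    rw [hld, List.mem_ofFn] at hj
    obtain ⟨i, rfl⟩ := hj
    exact hU i
  have hinv : 2 * T + 1 ≤ inv l := by rw [hld, inv_ofFn]; exact hC
  obtain ⟨l₁, l₂, g1, g2, g3⟩ := split l hl T (by linarith) (by linarith)
  have m₁ : ∀ j ∈ l₁, j ∈ l := fun j hj => by rw [g1]; exact List.mem_append_left _ hj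
  have m₂ : ∀ j ∈ l₂, j ∈ l := fun j hj => by rw [g1]; exact List.mem_append_right _ hj
  have d1 : dl l₁ ≤ τ / 4 := (dl_exp l₁ (fun j hj => hl j (m₁ j hj))).trans ((Real.exp_le_exp.2 (by linarith)).trans hT)
  have d2 : dl l₂ ≤ τ / 4 := (dl_exp l₂ (fun j hj => hl j (m₂ j hj))).trans ((Real.exp_le_exp.2 (by linarith)).trans hT)
  obtain ⟨β₁, -, a1, a2⟩ := big_PS η hη0.le hη1 l₁ (fun j hj => hl j (m₁ j hj)) (fun j hj => hlU j (m₁ j hj))
  obtain ⟨β₂, -, b1, b2⟩ := big_PS η hη0.le hη1 l₂ (fun j hj => hl j (m₂ j hj)) (fun j hj => hlU j (m₂ j hj))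
  filter_upwards [h (PS l₁) (PS l₂) β₁ β₂ a2 b2 (by linarith)] with N hN
  obtain ⟨a, ha, b, hb, z, hz⟩ := hN
  have hab := PS_append l₁ l₂ a b ha hb
  rw [← g1, hld] at hab
  obtain ⟨x, hxU, hx⟩ := PS_ofFn s k U _ hab
  exact ⟨z, x, hxU, by omega⟩

end Pool.Agent.Zk66.WarMain
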